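import Pool.Agent.Q145.LD.Win

set_option autoImplicit false
set_option maxHeartbeats 4000000

/-! # One block -/

namespace Pool.Agent.Q145.LD

open Finset Filter
open Pool.Agent.Q145.RA (seqs card_seqs Reg card_filter_inst)

open scoped Classical

variable {α β : Type}

theorem ev_exp (κ b : ℝ) (hκ : 0 < κ) (hb : 0 < b) : ∀ᶠ A : ℝ in atTop, Real.exp (-(κ * A)) ≤ b := by
  have h1 : Tendsto (fun A : ℝ => κ * A) atTop atTop := tendsto_id.const_mul_atTop hκ
  filter_upwards [h1.eventually_ge_atTop (-Real.log b)] with A hA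
  rw [← Real.le_log_iff_exp_le hb]
  linarith

theorem cntP_at_zero (S : Finset β) (R : α → β → Prop) (P : (α → ℕ) → Prop) (k : ℕ) :
    cntP S R P k (fun _ => 0) = ((seqs S k).filter (fun s => P (hit R s))).card := by
  unfold cntP
  congr 1
  apply filter_congr
  intro s _
  have : (fun n => 0 + hit R s n) = hit R s := by
    funext n
    rw [zero_add]
  rw [this]

theorem Z_zero (lam : ℝ) (W : Finset α) : Z lam W (fun _ => 0) = W.card := by
  unfold Z
  simp

theorem block (lam c : ℝ) (hl : 0 < lam) (hc : 0 < c) : ∃ a₀ : ℝ, 0 < a₀ ∧ ∀ ε₁ ε₂ : ℝ, 0 < ε₁ → 0 < ε₂ →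
    ∃ η₀ A₀ : ℝ, 0 < η₀ ∧ η₀ ≤ 1 ∧ ∀ (δ A : ℝ) (S : Finset β) (V W : Finset α) (R : α → β → Prop),
    0 < δ → A₀ ≤ A → Reg η₀ δ S V R → W ⊆ V → Real.exp (c * A) ≤ W.card → (W.card : ℝ) ≤ Real.exp A →
    ∀ k : ℕ, k * δ ≤ a₀ * A →
    (((seqs S k).filter (fun s => ¬ (W.card * Real.exp (-(k * δ * I lam + ε₁ * (|Real.log lam| + 1) * A)) ≤
      ((W.filter (fun n => |(hit R s n : ℝ) - lam * (k * δ)| ≤ ε₁ * A)).card : ℝ)))).card : ℝ) ≤
      ε₂ * (S.card : ℝ) ^ k := by
  set lam' : ℝ := Real.exp (6 * |Real.log lam| / c) with hlam'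
  have hlam'0 : 0 < lam' := Real.exp_pos _
  have hlam'1 : 1 ≤ lam' := Real.one_le_exp (by positivity)
  set a₀ : ℝ := min (min 1 (c / 4)) (1 / (2 * lam')) with ha₀d
  have ha₀ : 0 < a₀ := lt_min (lt_min one_pos (by positivity)) (by positivity)
  have ha₀1 : a₀ ≤ 1 := (min_le_left _ _).trans (min_le_left _ _)
  have ha₀2 : a₀ ≤ c / 4 := (min_le_left _ _).trans (min_le_right _ _)
  have ha₀3 : 2 * lam' * a₀ ≤ 1 := by
    have : a₀ ≤ 1 / (2 * lam') := min_le_right _ _
    rw [le_div_iff₀ (by positivity)] at this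
    linarith
  refine ⟨a₀, ha₀, fun ε₁ ε₂ hε₁ hε₂ => ?_⟩
  -- the parameters
  set τ : ℝ := min 1 (ε₁ / (2 * lam)) with hτd
  have hτ : 0 < τ := lt_min one_pos (by positivity)
  have hτ1 : τ ≤ 1 := min_le_left _ _
  have hlτ : lam * τ ≤ ε₁ / 2 := by
    have : τ ≤ ε₁ / (2 * lam) := min_le_right _ _
    rw [le_div_iff₀ (by positivity)] at this
    linarith
  set ε₃ : ℝ := min (τ * ε₁ / 8) (c / 4) with hε₃d
  have hε₃ : 0 < ε₃ := lt_min (by positivity) (by positivity)
  have hε₃1 : ε₃ ≤ τ * ε₁ / 8 := min_le_left _ _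
  have hε₃2 : ε₃ ≤ c / 4 := min_le_right _ _
  set C : ℝ := (lam - 1) ^ 2 / min 1 lam with hC
  have hm1 : 0 < min 1 lam := lt_min one_pos hl
  have hC0 : 0 ≤ C := by positivity
  set M : ℝ := 8 * (C + 1) / ε₃ with hM
  have hM0 : 0 < M := by positivity
  set Q : ℝ := |lam - 1| + C + |lam * Real.exp τ - 1| + |lam * Real.exp (-τ) - 1| + 1 with hQ
  have hQ1 : |lam - 1| + C ≤ Q := by
    have h1 := abs_nonneg (lam * Real.exp τ - 1)
    have h2 := abs_nonneg (lam * Real.exp (-τ) - 1)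
    rw [hQ]
    linarith
  have hQ2 : |lam * Real.exp τ - 1| ≤ Q := by
    have h1 := abs_nonneg (lam - 1)
    have h2 := abs_nonneg (lam * Real.exp (-τ) - 1)
    rw [hQ]
    linarith
  have hQ3 : |lam * Real.exp (-τ) - 1| ≤ Q := by
    have h1 := abs_nonneg (lam - 1)
    have h2 := abs_nonneg (lam * Real.exp τ - 1)
    rw [hQ]
    linarith
  have hQ0 : 0 < Q := by
    have h1 := abs_nonneg (lam - 1)
    have h2 := abs_nonneg (lam * Real.exp τ - 1)
    have h3 := abs_nonneg (lam * Real.exp (-τ) - 1)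
    rw [hQ]
    linarith
  set η₀ : ℝ := min 1 (ε₃ / (8 * Q)) with hη₀d
  have hη₀ : 0 < η₀ := lt_min one_pos (by positivity)
  have hη₀1 : η₀ ≤ 1 := min_le_left _ _
  have hη₀Q : Q * η₀ ≤ ε₃ / 8 := by
    have : η₀ ≤ ε₃ / (8 * Q) := min_le_right _ _
    rw [le_div_iff₀ (by positivity)] at this
    linarith
  obtain ⟨A₀, hA₀⟩ := eventually_atTop.1 ((ev_exp (ε₃ / 2) (ε₂ / 4) (by positivity) (by positivity)).and
    ((ev_exp (c / 2) (1 / M) (by positivity) (by positivity)).and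
    ((ev_exp (τ * ε₁ / 4) (1 / 4) (by positivity) (by norm_num)).and
    ((ev_exp (ε₁ / 2) (1 / 2) (by positivity) (by norm_num)).and
    ((ev_exp 1 (ε₂ / 4) one_pos (by positivity)).and (eventually_ge_atTop 0))))))
  refine ⟨η₀, A₀, hη₀, hη₀1, fun δ A S V W R hδ hA hR hWV hWc hWA k hk => ?_⟩
  obtain ⟨g1, g2, g3, g4, g5, hA0⟩ := hA₀ A hA
  rw [one_mul] at g5
  set μ : ℝ := k * δ with hμd
  have hμ0 : 0 ≤ μ := by positivity
  have hμA : μ ≤ A := hk.trans (by nlinarith)
  have hW : W.Nonempty := by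
    rw [← card_pos]
    have : (0 : ℝ) < W.card := (Real.exp_pos _).trans_le hWc
    exact_mod_cast this
  have hW0 : (0 : ℝ) < W.card := (Real.exp_pos _).trans_le hWc
  have hS0 : (0 : ℝ) ≤ (S.card : ℝ) ^ k := by positivity
  have hMexp : M ≤ Real.exp (c / 2 * A) := by
    rw [Real.exp_neg, inv_le_comm₀ (Real.exp_pos _) (by positivity), one_div, inv_inv] at g2
    exact g2
  set m : ℝ := W.card * Real.exp ((lam - 1) * μ - ε₃ * A) with hm
  have hm0 : 0 < m := by positivity
  have hrate : rate η₀ δ lam M * k ≤ -(lam - 1) * μ + ε₃ / 2 * A := by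
    have e1 : rate η₀ δ lam M * k = -(lam - 1) * μ + ((|lam - 1| + C) * η₀ + C * (2 / M)) * μ := by
      unfold rate
      rw [hμd, ← hC]
      ring
    rw [e1]
    have e2 : (|lam - 1| + C) * η₀ ≤ ε₃ / 8 := (mul_le_mul_of_nonneg_right hQ1 hη₀.le).trans hη₀Q
    have e3 : C * (2 / M) ≤ ε₃ / 4 := by
      rw [hM]
      have : C * (2 / (8 * (C + 1) / ε₃)) = (C / (C + 1)) * (ε₃ / 4) := by
        field_simp
        ring
      rw [this]
      have h1 : C / (C + 1) ≤ 1 := by
        rw [div_le_one (by positivity)]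
        linarith
      nlinarith
    have e4 : ((|lam - 1| + C) * η₀ + C * (2 / M)) * μ ≤ ε₃ / 2 * A := by
      apply mul_le_mul _ hμA hμ0 (by positivity)
      linarith
    linarith
  -- the exceptional sets
  have hE1 : ∀ Wm : ℝ, ((1 ≤ lam ∧ M * Wm ≤ W.card) ∨ (lam ≤ 1 ∧ Wm = 1 ∧ M ≤ m)) →
      (((seqs S k).filter (fun s => (∀ n ∈ W, lam ^ hit R s n ≤ Wm) ∧ Z lam W (hit R s) ≤ m)).card : ℝ) ≤
      ε₂ / 4 * (S.card : ℝ) ^ k := by
    intro Wm hcase
    have e1 := pot η₀ δ lam Wm M m hη₀.le hη₀1 hδ.le hl hM0 hm0.le R S V W hR hWV hW hcase k (fun _ => 0)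
    rw [cntP_at_zero, Z_zero] at e1
    refine (le_of_eq (congrArg Nat.cast (card_filter_inst _ _ _ _))).trans (e1.trans ?_)
    rw [mul_comm]
    apply mul_le_mul_of_nonneg_right _ hS0
    rw [div_le_iff₀ hW0]
    calc m * Real.exp (rate η₀ δ lam M * k) ≤ m * Real.exp (-(lam - 1) * μ + ε₃ / 2 * A) :=
          mul_le_mul_of_nonneg_left (Real.exp_le_exp.2 hrate) hm0.le
      _ = W.card * Real.exp (-(ε₃ / 2 * A)) := by
          rw [hm, mul_assoc, ← Real.exp_add]
          congr 2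
          ring
      _ ≤ W.card * (ε₂ / 4) := mul_le_mul_of_nonneg_left g1 hW0.le
      _ = ε₂ / 4 * W.card := mul_comm _ _
  have hE2 : ∀ l : ℝ, 0 < l → |l - 1| ≤ Q →
      (((seqs S k).filter (fun s => W.card * Real.exp ((l - 1) * μ + ε₃ * A) ≤ Z l W (hit R s))).card : ℝ) ≤
      ε₂ / 4 * (S.card : ℝ) ^ k := by
    intro l hl0 hlQ
    have e1 := fst η₀ δ l hl0 R S V W hR hWV k (W.card * Real.exp ((l - 1) * μ + ε₃ * A)) (by positivity)
    refine e1.trans ?_
    rw [mul_comm]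
    apply mul_le_mul_of_nonneg_right _ hS0
    rw [div_le_iff₀ (by positivity)]
    have e2 : (k : ℝ) * (δ * (l - 1 + |l - 1| * η₀)) ≤ (l - 1) * μ + ε₃ / 2 * A := by
      have f1 : (k : ℝ) * (δ * (l - 1 + |l - 1| * η₀)) = (l - 1) * μ + (|l - 1| * η₀) * μ := by
        rw [hμd]
        ring
      rw [f1]
      have f2 : |l - 1| * η₀ ≤ ε₃ / 8 := (mul_le_mul_of_nonneg_right hlQ hη₀.le).trans hη₀Q
      have f3 : (|l - 1| * η₀) * μ ≤ ε₃ / 2 * A := by
        apply mul_le_mul _ hμA hμ0 (by positivity)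
        linarith
      linarith
    calc W.card * Real.exp ((k : ℝ) * (δ * (l - 1 + |l - 1| * η₀))) ≤
        W.card * Real.exp ((l - 1) * μ + ε₃ / 2 * A) :=
          mul_le_mul_of_nonneg_left (Real.exp_le_exp.2 e2) hW0.le
      _ = Real.exp (-(ε₃ / 2 * A)) * (W.card * Real.exp ((l - 1) * μ + ε₃ * A)) := by
          have f4 : Real.exp ((l - 1) * μ + ε₃ / 2 * A) = Real.exp (-(ε₃ / 2 * A)) * Real.exp ((l - 1) * μ + ε₃ * A) := by
            rw [← Real.exp_add]
            congr 1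
            ring
          rw [f4]
          ring
      _ ≤ ε₂ / 4 * (W.card * Real.exp ((l - 1) * μ + ε₃ * A)) := by
          apply mul_le_mul_of_nonneg_right g1
          positivity
  have hE4 : (((seqs S k).filter (fun s => Real.exp (3 * A) ≤ Z lam' W (hit R s))).card : ℝ) ≤
      ε₂ / 4 * (S.card : ℝ) ^ k := by
    have e1 := fst η₀ δ lam' hlam'0 R S V W hR hWV k (Real.exp (3 * A)) (Real.exp_pos _)
    refine e1.trans ?_
    rw [mul_comm]
    apply mul_le_mul_of_nonneg_right _ hS0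
    rw [div_le_iff₀ (Real.exp_pos _)]
    have e2 : (k : ℝ) * (δ * (lam' - 1 + |lam' - 1| * η₀)) ≤ A := by
      have f1 : (k : ℝ) * (δ * (lam' - 1 + |lam' - 1| * η₀)) = (lam' - 1 + |lam' - 1| * η₀) * μ := by
        rw [hμd]
        ring
      rw [f1, abs_of_nonneg (by linarith)]
      have f2 : lam' - 1 + (lam' - 1) * η₀ ≤ 2 * lam' := by nlinarith
      calc (lam' - 1 + (lam' - 1) * η₀) * μ ≤ 2 * lam' * (a₀ * A) := mul_le_mul f2 hk hμ0 (by positivity)
        _ = (2 * lam' * a₀) * A := by ring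
        _ ≤ 1 * A := mul_le_mul_of_nonneg_right ha₀3 hA0
        _ = A := one_mul A
    calc W.card * Real.exp ((k : ℝ) * (δ * (lam' - 1 + |lam' - 1| * η₀))) ≤ Real.exp A * Real.exp A :=
          mul_le_mul hWA (Real.exp_le_exp.2 e2) (Real.exp_pos _).le (Real.exp_pos _).le
      _ = Real.exp (-A) * Real.exp (3 * A) := by
          rw [← Real.exp_add, ← Real.exp_add]
          congr 1
          ring
      _ ≤ ε₂ / 4 * Real.exp (3 * A) := mul_le_mul_of_nonneg_right g5 (Real.exp_pos _).le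
  -- the choice of the bound for the weights
  obtain ⟨Wm, hcase, hWm⟩ : ∃ Wm : ℝ, ((1 ≤ lam ∧ M * Wm ≤ W.card) ∨ (lam ≤ 1 ∧ Wm = 1 ∧ M ≤ m)) ∧
      ∀ s : Fin k → β, (∀ n ∈ W, lam ^ hit R s n ≤ Wm) ∨ Real.exp (3 * A) ≤ Z lam' W (hit R s) := by
    rcases le_or_gt lam 1 with h1 | h1
    · refine ⟨1, Or.inr ⟨h1, rfl, ?_⟩, fun s => Or.inl fun n _ => pow_le_one₀ hl.le h1⟩
      refine hMexp.trans ?_
      rw [hm]
      have e1 : Real.exp (c * A) * Real.exp ((lam - 1) * μ - ε₃ * A) ≤ W.card * Real.exp ((lam - 1) * μ - ε₃ * A) :=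
        mul_le_mul_of_nonneg_right hWc (Real.exp_pos _).le
      refine le_trans ?_ e1
      rw [← Real.exp_add]
      apply Real.exp_le_exp.2
      have e2 : -(c / 4 * A) ≤ (lam - 1) * μ := by
        have f1 : μ ≤ c / 4 * A := hk.trans (mul_le_mul_of_nonneg_right ha₀2 hA0)
        nlinarith
      have e3 : ε₃ * A ≤ c / 4 * A := mul_le_mul_of_nonneg_right hε₃2 hA0
      linarith
    · refine ⟨Real.exp (c / 2 * A), Or.inl ⟨h1.le, ?_⟩, fun s => ?_⟩
      · calc M * Real.exp (c / 2 * A) ≤ Real.exp (c / 2 * A) * Real.exp (c / 2 * A) :=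
              mul_le_mul_of_nonneg_right hMexp (Real.exp_pos _).le
          _ = Real.exp (c * A) := by
              rw [← Real.exp_add]
              congr 1
              ring
          _ ≤ W.card := hWc
      · by_cases h2 : ∀ n ∈ W, lam ^ hit R s n ≤ Real.exp (c / 2 * A)
        · exact Or.inl h2
        · right
          push Not at h2
          obtain ⟨n, hn, h3⟩ := h2
          have hlog : 0 < Real.log lam := Real.log_pos h1
          have e1 : c / 2 * A < hit R s n * Real.log lam := by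
            have : lam ^ hit R s n = Real.exp (hit R s n * Real.log lam) := by
              rw [← Real.log_pow, Real.exp_log (pow_pos hl _)]
            rw [this] at h3
            exact Real.exp_lt_exp.1 h3
          have e2 : Real.exp (3 * A) ≤ lam' ^ hit R s n := by
            rw [hlam', ← Real.exp_nat_mul]
            apply Real.exp_le_exp.2
            rw [abs_of_pos hlog]
            have : (hit R s n : ℝ) * (6 * Real.log lam / c) = 6 / c * (hit R s n * Real.log lam) := by ring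
            rw [this]
            have e3 : 6 / c * (c / 2 * A) ≤ 6 / c * (hit R s n * Real.log lam) :=
              mul_le_mul_of_nonneg_left e1.le (by positivity)
            have e4 : 6 / c * (c / 2 * A) = 3 * A := by
              field_simp
              ring
            linarith
          refine e2.trans ?_
          unfold Z
          exact single_le_sum (f := fun n => lam' ^ hit R s n) (fun _ _ => (pow_pos hlam'0 _).le) hn
  have hE1' := hE1 Wm hcase
  have hE2' := hE2 (lam * Real.exp τ) (by positivity) hQ2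
  have hE3' := hE2 (lam * Real.exp (-τ)) (by positivity) hQ3
  have hsub : (seqs S k).filter (fun s => ¬ (W.card * Real.exp (-(μ * I lam + ε₁ * (|Real.log lam| + 1) * A)) ≤
      ((W.filter (fun n => |(hit R s n : ℝ) - lam * μ| ≤ ε₁ * A)).card : ℝ))) ⊆
      (seqs S k).filter (fun s => (∀ n ∈ W, lam ^ hit R s n ≤ Wm) ∧ Z lam W (hit R s) ≤ m) ∪
      ((seqs S k).filter (fun s => W.card * Real.exp ((lam * Real.exp τ - 1) * μ + ε₃ * A) ≤
        Z (lam * Real.exp τ) W (hit R s)) ∪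
      ((seqs S k).filter (fun s => W.card * Real.exp ((lam * Real.exp (-τ) - 1) * μ + ε₃ * A) ≤
        Z (lam * Real.exp (-τ)) W (hit R s)) ∪
      (seqs S k).filter (fun s => Real.exp (3 * A) ≤ Z lam' W (hit R s)))) := by
    intro s hs
    obtain ⟨h1, h2⟩ := mem_filter.1 hs
    by_contra h3
    rw [mem_union, mem_union, mem_union, not_or, not_or, not_or, mem_filter, mem_filter, mem_filter, mem_filter] at h3
    obtain ⟨q1, q2, q3, q4⟩ := h3
    apply h2
    have w2 : Z (lam * Real.exp τ) W (hit R s) ≤ W.card * Real.exp ((lam * Real.exp τ - 1) * μ + ε₃ * A) := by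
      by_contra h4
      exact q2 ⟨h1, (not_le.1 h4).le⟩
    have w3 : Z (lam * Real.exp (-τ)) W (hit R s) ≤ W.card * Real.exp ((lam * Real.exp (-τ) - 1) * μ + ε₃ * A) := by
      by_contra h4
      exact q3 ⟨h1, (not_le.1 h4).le⟩
    have w1 : W.card * Real.exp ((lam - 1) * μ - ε₃ * A) ≤ Z lam W (hit R s) := by
      rcases hWm s with h4 | h4
      · by_contra h5
        exact q1 ⟨h1, h4, (not_le.1 h5).le⟩
      · exact absurd ⟨h1, h4⟩ q4
    exact window_count lam τ ε₁ ε₃ A μ hl hτ hτ1 hlτ hε₁ hε₃ hε₃1 hμ0 hμA hA0 g3 g4 W (hit R s) w1 w2 w3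
  have hcard := (card_le_card hsub).trans ((card_union_le _ _).trans (Nat.add_le_add_left ((card_union_le _ _).trans
    (Nat.add_le_add_left (card_union_le _ _) _)) _))
  have hcr : (((seqs S k).filter (fun s => ¬ (W.card * Real.exp (-(μ * I lam + ε₁ * (|Real.log lam| + 1) * A)) ≤
      ((W.filter (fun n => |(hit R s n : ℝ) - lam * μ| ≤ ε₁ * A)).card : ℝ)))).card : ℝ) ≤
      (((seqs S k).filter (fun s => (∀ n ∈ W, lam ^ hit R s n ≤ Wm) ∧ Z lam W (hit R s) ≤ m)).card : ℝ) +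
      ((((seqs S k).filter (fun s => W.card * Real.exp ((lam * Real.exp τ - 1) * μ + ε₃ * A) ≤
        Z (lam * Real.exp τ) W (hit R s))).card : ℝ) +
      ((((seqs S k).filter (fun s => W.card * Real.exp ((lam * Real.exp (-τ) - 1) * μ + ε₃ * A) ≤
        Z (lam * Real.exp (-τ)) W (hit R s))).card : ℝ) +
      (((seqs S k).filter (fun s => Real.exp (3 * A) ≤ Z lam' W (hit R s))).card : ℝ))) := by
    exact_mod_cast hcard
  linarith

end Pool.Agent.Q145.LD
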