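import Pool.Agent.Q145.LD.Profile

set_option autoImplicit false
set_option maxHeartbeats 4000000

/-! # The extreme numbers of hits -/

namespace Pool.Agent.Q145.LD

open Finset Filter
open Pool.Agent.Q145.RA (seqs card_seqs Reg card_filter_inst kap surv)

open scoped Classical

variable {α β : Type}

theorem I_le_sq (u : ℝ) (hu : 0 ≤ u) : I u ≤ (u - 1) ^ 2 := by
  unfold I
  rcases eq_or_lt_of_le hu with h | h
  · rw [← h]
    simp
  · have h1 := Real.log_le_sub_one_of_pos h
    have h2 : u * Real.log u ≤ u * (u - 1) := mul_le_mul_of_nonneg_left h1 hu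
    nlinarith

theorem I_pos (u : ℝ) (hu : 0 < u) (h1 : u ≠ 1) : 0 < I u := by
  unfold I
  have h2 := Real.log_lt_sub_one_of_pos (show 0 < 1 / u by positivity) (by
    intro h
    rw [div_eq_iff hu.ne', one_mul] at h
    exact h1 h.symm)
  rw [one_div, Real.log_inv] at h2
  have h3 : u * (-Real.log u) < u * (u⁻¹ - 1) := mul_lt_mul_of_pos_left h2 hu
  have h4 : u * (u⁻¹ - 1) = 1 - u := by
    field_simp
  linarith

/-- the extreme values -/
def Ext (ε δ : ℝ) (R : α → β → Prop) (V : Finset α) {k : ℕ} (s : Fin k → β) : Prop :=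
  (∀ v : ℝ, 1 < v → kap δ V.card k * I v = 1 →
    (∀ n ∈ V, (hit R s n : ℝ) ≤ (v + ε) * (k * δ)) ∧ ∃ n ∈ V, (v - ε) * (k * δ) ≤ hit R s n) ∧
  (∀ w : ℝ, 0 ≤ w → w < 1 → kap δ V.card k * I w = 1 →
    (∀ n ∈ V, (w - ε) * (k * δ) ≤ hit R s n) ∧ ∃ n ∈ V, (hit R s n : ℝ) ≤ (w + ε) * (k * δ)) ∧
  (kap δ V.card k ≤ 1 - ε → ∃ n ∈ V, hit R s n = 0)

theorem ext_of_prof (K ε : ℝ) (hK : 0 < K) (hε : 0 < ε) (hε1 : ε ≤ 1) : ∃ ε' : ℝ, 0 < ε' ∧ ε' ≤ ε ∧
    ∀ (δ : ℝ) (V : Finset α) (R : α → β → Prop), 0 < δ → 3 ≤ V.card → ∀ (k : ℕ) (s : Fin k → β),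
    kap δ V.card k ≤ K → ε ≤ kap δ V.card k → Prof ε' δ R V s → Ext ε δ R V s := by
  set c₁ : ℝ := 1 / Real.sqrt K with hc₁
  have hsK : 0 < Real.sqrt K := Real.sqrt_pos.2 hK
  have hc₁0 : 0 < c₁ := by positivity
  have hc₁K : c₁ ^ 2 * K = 1 := by
    rw [hc₁, div_pow, Real.sq_sqrt hK.le, one_pow]
    field_simp
  have hl1 : 0 < Real.log (1 + c₁) := Real.log_pos (by linarith)
  set ε' : ℝ := min (min (ε / 2) (ε ^ 2 * Real.log (1 + c₁) / 2)) (min (ε ^ 3 / 16) (min (ε ^ 2 * c₁ / 2) (ε ^ 2 / 4 * Real.log (1 + ε / 2)))) with hε'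
  have hlε : 0 < Real.log (1 + ε / 2) := Real.log_pos (by linarith)
  have h0 : 0 < ε' := lt_min (lt_min (by positivity) (by positivity)) (lt_min (by positivity)
    (lt_min (by positivity) (by positivity)))
  have p1 : ε' ≤ ε / 2 := (min_le_left _ _).trans (min_le_left _ _)
  have p2 : ε' ≤ ε ^ 2 * Real.log (1 + c₁) / 2 := (min_le_left _ _).trans (min_le_right _ _)
  have p3 : ε' ≤ ε ^ 3 / 16 := (min_le_right _ _).trans (min_le_left _ _)
  have p4 : ε' ≤ ε ^ 2 * c₁ / 2 := (min_le_right _ _).trans ((min_le_right _ _).trans (min_le_left _ _))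
  have p5 : ε' ≤ ε ^ 2 / 4 * Real.log (1 + ε / 2) :=
    (min_le_right _ _).trans ((min_le_right _ _).trans (min_le_right _ _))
  refine ⟨ε', h0, by linarith, fun δ V R hδ hX k s hk hk' hP => ?_⟩
  have hκ0 : 0 < kap δ V.card k := hε.trans_le hk'
  obtain ⟨P1, P2⟩ := hP
  unfold Ext
  set X : ℕ := V.card with hVX
  set κ := kap δ X k with hκ
  have hX1 : (1 : ℝ) < X := by
    have : (3 : ℝ) ≤ X := by exact_mod_cast hX
    linarith
  have hX0 : (0 : ℝ) < X := by linarith
  -- non-empty and empty filters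
  have hex : ∀ (P : α → Prop) (z : ℝ), (X : ℝ) ^ z ≤ ((V.filter P).card : ℝ) → ∃ n ∈ V, P n := by
    intro P z h
    have h1 : (0 : ℝ) < ((V.filter P).card : ℝ) := (Real.rpow_pos_of_pos hX0 _).trans_le h
    obtain ⟨n, hn⟩ := card_pos.1 (by exact_mod_cast h1 : 0 < (V.filter P).card)
    exact ⟨n, (mem_filter.1 hn).1, (mem_filter.1 hn).2⟩
  have hem : ∀ (P : α → Prop) (z : ℝ), z < 0 → ((V.filter P).card : ℝ) ≤ (X : ℝ) ^ z → ∀ n ∈ V, ¬ P n := by
    intro P z hz h n hn hPn
    have h1 : ((V.filter P).card : ℝ) < 1 := h.trans_lt (Real.rpow_lt_one_of_one_lt_of_neg hX1 hz)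
    have h2 : (V.filter P).card < 1 := by exact_mod_cast h1
    have h3 : 0 < (V.filter P).card := card_pos.2 ⟨n, mem_filter.2 ⟨hn, hPn⟩⟩
    omega
  -- the square root bound
  have hsq : ∀ u : ℝ, 0 ≤ u → κ * I u = 1 → c₁ ≤ |u - 1| := by
    intro u hu h
    have h1 := I_le_sq u hu
    have h2 : κ * I u ≤ K * (u - 1) ^ 2 := mul_le_mul hk h1 (I_nonneg u hu) hK.le
    rw [h] at h2
    by_contra h3
    rw [not_le] at h3
    have h4 : (u - 1) ^ 2 < c₁ ^ 2 := by
      rw [← sq_abs]
      exact pow_lt_pow_left₀ h3 (abs_nonneg _) (by norm_num)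
    have h5 : K * (u - 1) ^ 2 < K * c₁ ^ 2 := mul_lt_mul_of_pos_left h4 hK
    linarith
  refine ⟨fun v hv hvI => ?_, fun w hw hw1 hwI => ?_, fun h => ?_⟩
  · have hvc : 1 + c₁ ≤ v := by
      have := hsq v (by linarith) hvI
      rw [abs_of_pos (by linarith)] at this
      linarith
    constructor
    · intro n hn
      have h1 := I_tangent v (v + ε) (by linarith) (by linarith)
      have h2 : Real.log (1 + c₁) ≤ Real.log v := Real.log_le_log (by linarith) hvc
      have h3 : 1 + ε ^ 2 * Real.log (1 + c₁) ≤ κ * I (v + ε) := by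
        have h4 : κ * (I v + (v + ε - v) * Real.log v) ≤ κ * I (v + ε) := mul_le_mul_of_nonneg_left h1 hκ0.le
        have h5 : ε * (ε * Real.log (1 + c₁)) ≤ κ * (ε * Real.log v) :=
          mul_le_mul hk' (mul_le_mul_of_nonneg_left h2 hε.le) (by positivity) hκ0.le
        nlinarith
      have h6 := (P1 (v + ε) (by linarith)).1
      have h7 := hem _ _ (by
        have : 0 < ε ^ 2 * Real.log (1 + c₁) := by positivity
        linarith) h6 n hn
      exact (not_le.1 h7).le
    · rcases le_or_gt (v - ε) 1 with h1 | h1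
      · have h6 := (P1 1 le_rfl).2 (by
          rw [I_one, mul_zero]
          linarith)
        obtain ⟨n, hn, h7⟩ := hex _ _ h6
        refine ⟨n, hn, le_trans ?_ h7⟩
        exact mul_le_mul_of_nonneg_right h1 (by positivity)
      · have h2 := I_tangent (v - ε / 2) v (by linarith) (by linarith)
        have h3 := I_mono (v - ε) (v - ε / 2) h1.le (by linarith)
        have h4 : Real.log (1 + ε / 2) ≤ Real.log (v - ε / 2) := Real.log_le_log (by linarith) (by linarith)
        have h5 : κ * I (v - ε) ≤ 1 - ε' := by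
          have h8 : κ * (I (v - ε) + ε / 2 * Real.log (v - ε / 2)) ≤ κ * I v := by
            apply mul_le_mul_of_nonneg_left _ hκ0.le
            have : v - (v - ε / 2) = ε / 2 := by ring
            rw [this] at h2
            linarith
          have h9 : ε * (ε / 2 * Real.log (1 + ε / 2)) ≤ κ * (ε / 2 * Real.log (v - ε / 2)) :=
            mul_le_mul hk' (mul_le_mul_of_nonneg_left h4 (by positivity)) (by positivity) hκ0.le
          have h10 : 0 < ε ^ 2 * Real.log (1 + ε / 2) := by positivity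
          nlinarith
        exact hex _ _ ((P1 (v - ε) h1.le).2 h5)
  · have hwc : w ≤ 1 - c₁ := by
      have := hsq w hw hwI
      rw [abs_of_neg (by linarith)] at this
      linarith
    constructor
    · intro n hn
      rcases le_or_gt (w - ε) 0 with h1 | h1
      · refine le_trans (mul_nonpos_of_nonpos_of_nonneg h1 (by positivity)) (Nat.cast_nonneg _)
      · have hw0 : 0 < w := by linarith
        have h2 := I_tangent w (w - ε) hw0 h1.le
        have h3 : Real.log w ≤ -c₁ := (Real.log_le_sub_one_of_pos hw0).trans (by linarith)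
        have h4 : 1 + ε ^ 2 * c₁ ≤ κ * I (w - ε) := by
          have h5 : κ * (I w + (w - ε - w) * Real.log w) ≤ κ * I (w - ε) := mul_le_mul_of_nonneg_left h2 hκ0.le
          have h6 : ε * (ε * c₁) ≤ κ * (ε * (-Real.log w)) :=
            mul_le_mul hk' (mul_le_mul_of_nonneg_left (by linarith) hε.le) (by positivity) hκ0.le
          nlinarith
        have h6 := (P2 (w - ε) h1.le (by linarith)).1
        have h7 := hem _ _ (by
          have : 0 < ε ^ 2 * c₁ := by positivity
          linarith) h6 n hn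
        exact (not_le.1 h7).le
    · rcases le_or_gt 1 (w + ε) with h1 | h1
      · have h6 := (P2 1 (by norm_num) le_rfl).2 (by
          rw [I_one, mul_zero]
          linarith)
        obtain ⟨n, hn, h7⟩ := hex _ _ h6
        refine ⟨n, hn, le_trans h7 ?_⟩
        exact mul_le_mul_of_nonneg_right h1 (by positivity)
      · have h2 := I_tangent (w + ε / 2) w (by linarith) hw
        have h3 := I_anti (w + ε / 2) (w + ε) (by linarith) (by linarith) h1.le
        have h4 : Real.log (w + ε / 2) ≤ -(ε / 2) := by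
          have h5 := Real.log_le_sub_one_of_pos (show 0 < w + ε / 2 by linarith)
          linarith
        have h5 : κ * I (w + ε) ≤ 1 - ε' := by
          have h8 : κ * (I (w + ε) + ε / 2 * (ε / 2)) ≤ κ * I w := by
            apply mul_le_mul_of_nonneg_left _ hκ0.le
            nlinarith
          have h9 : ε * (ε / 2 * (ε / 2)) ≤ κ * (ε / 2 * (ε / 2)) :=
            mul_le_mul_of_nonneg_right hk' (by positivity)
          have h10 : 0 < ε ^ 3 := by positivity
          nlinarith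
        exact hex _ _ ((P2 (w + ε) (by linarith) h1.le).2 h5)
  · obtain ⟨n, hn, h7⟩ := hex _ _ ((P2 0 le_rfl (by norm_num)).2 (by
      rw [I_zero, mul_one]
      linarith))
    rw [zero_mul] at h7
    exact ⟨n, hn, by exact_mod_cast le_antisymm h7 (Nat.cast_nonneg _)⟩

/-- many steps: one tail -/
theorem far1 (lam e : ℝ) (hl : 0 < lam) (h1 : lam ≠ 1) (he : 0 < e) : ∃ (M η : ℝ) (X₀ : ℕ), 0 < η ∧
    ∀ (δ : ℝ) (S : Finset β) (V : Finset α) (R : α → β → Prop), 0 < δ → Reg η δ S V R → X₀ ≤ V.card →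
    ∀ k : ℕ, M ≤ kap δ V.card k →
    (((seqs S k).filter (fun s => Real.exp (lam * (k * δ) * Real.log lam) ≤ Z lam V (hit R s))).card : ℝ) ≤
      e * (S.card : ℝ) ^ k := by
  have hI := I_pos lam hl h1
  have hl' : Tendsto (fun Y : ℕ => Real.log Y) atTop atTop :=
    Real.tendsto_log_atTop.comp tendsto_natCast_atTop_atTop
  obtain ⟨X₀, hX₀⟩ := eventually_atTop.1 ((hl'.eventually (ev_exp 1 e one_pos he)).and
    (eventually_ge_atTop 3))
  have habs : 0 < |lam - 1| := abs_pos.2 (sub_ne_zero.2 h1)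
  refine ⟨4 / I lam, I lam / (2 * |lam - 1|), X₀, by positivity, fun δ S V R hδ hR hX k hk => ?_⟩
  obtain ⟨g1, g3⟩ := hX₀ V.card hX
  have hkL := kap_mul δ V.card k g3
  have e1 := fst (I lam / (2 * |lam - 1|)) δ lam hl R S V V hR (Subset.refl _) k
    (Real.exp (lam * (k * δ) * Real.log lam)) (Real.exp_pos _)
  refine e1.trans ?_
  set X : ℕ := V.card with hVX
  have hXr : (3 : ℝ) ≤ X := by exact_mod_cast g3
  have hX0 : (0 : ℝ) < X := by linarith
  set A := Real.log (X : ℝ) with hA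
  have hA0 : 0 < A := Real.log_pos (by linarith)
  have hXA : (X : ℝ) = Real.exp A := (Real.exp_log hX0).symm
  set κ := kap δ X k with hκ
  rw [mul_comm]
  apply mul_le_mul_of_nonneg_right _ (pow_nonneg (Nat.cast_nonneg _) _)
  rw [hXA, ← Real.exp_add, ← Real.exp_sub]
  refine le_trans (Real.exp_le_exp.2 ?_) g1
  have e2 : (k : ℝ) * (δ * (lam - 1 + |lam - 1| * (I lam / (2 * |lam - 1|)))) = (lam - 1 + I lam / 2) * (κ * A) := by
    have : |lam - 1| * (I lam / (2 * |lam - 1|)) = I lam / 2 := by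
      field_simp
    rw [this, ← hkL]
    ring
  rw [e2, hkL]
  have e3 : 4 ≤ κ * I lam := by
    rwa [div_le_iff₀ hI] at hk
  have e4 : 4 * A ≤ κ * I lam * A := mul_le_mul_of_nonneg_right e3 hA0.le
  have e5 : A + (lam - 1 + I lam / 2) * (κ * A) - lam * (κ * A) * Real.log lam = A - κ * I lam * A / 2 := by
    unfold I
    ring
  rw [e5]
  linarith

/-- many steps: every point gets the expected number of hits -/
theorem far (ε : ℝ) (hε : 0 < ε) (hε1 : ε < 1) : ∃ (M η : ℝ) (X₀ : ℕ), 0 < η ∧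
    ∀ (δ : ℝ) (S : Finset β) (V : Finset α) (R : α → β → Prop), 0 < δ → Reg η δ S V R → X₀ ≤ V.card →
    ∀ k : ℕ, M ≤ kap δ V.card k →
    (((seqs S k).filter (fun s => ¬ ∀ n ∈ V, |(hit R s n : ℝ) - k * δ| ≤ ε * (k * δ))).card : ℝ) ≤
      ε * (S.card : ℝ) ^ k := by
  obtain ⟨M₁, η₁, X₁, hη₁, h1⟩ := far1 (α := α) (β := β) (1 + ε) (ε / 2) (by linarith) (by linarith) (by linarith)
  obtain ⟨M₂, η₂, X₂, hη₂, h2⟩ := far1 (α := α) (β := β) (1 - ε) (ε / 2) (by linarith) (by linarith) (by linarith)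
  refine ⟨max M₁ M₂, min η₁ η₂, max X₁ X₂, lt_min hη₁ hη₂, fun δ S V R hδ hR hX k hk => ?_⟩
  have c1 := h1 δ S V R hδ (Reg.mono hδ.le (min_le_left _ _) hR) ((le_max_left _ _).trans hX) k
    ((le_max_left _ _).trans hk)
  have c2 := h2 δ S V R hδ (Reg.mono hδ.le (min_le_right _ _) hR) ((le_max_right _ _).trans hX) k
    ((le_max_right _ _).trans hk)
  have hsub : (seqs S k).filter (fun s => ¬ ∀ n ∈ V, |(hit R s n : ℝ) - k * δ| ≤ ε * (k * δ)) ⊆
      (seqs S k).filter (fun s => Real.exp ((1 + ε) * (k * δ) * Real.log (1 + ε)) ≤ Z (1 + ε) V (hit R s)) ∪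
      (seqs S k).filter (fun s => Real.exp ((1 - ε) * (k * δ) * Real.log (1 - ε)) ≤ Z (1 - ε) V (hit R s)) := by
    intro s hs
    rw [mem_filter] at hs
    obtain ⟨h3, h4⟩ := hs
    push Not at h4
    obtain ⟨n, hn, h5⟩ := h4
    rw [lt_abs] at h5
    rw [mem_union, mem_filter, mem_filter]
    rcases h5 with h5 | h5
    · left
      refine ⟨h3, ?_⟩
      have h6 := (tail_Z R δ V s (1 + ε) (by linarith)).1 (by linarith)
      refine le_trans ?_ h6
      have h7 : 1 ≤ (NP R δ V s (1 + ε) : ℝ) := by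
        have : 0 < NP R δ V s (1 + ε) := card_pos.2 ⟨n, mem_filter.2 ⟨hn, by linarith⟩⟩
        exact_mod_cast this
      nlinarith [Real.exp_pos ((1 + ε) * (k * δ) * Real.log (1 + ε))]
    · right
      refine ⟨h3, ?_⟩
      have h6 := (tail_Z R δ V s (1 - ε) (by linarith)).2 (by linarith)
      refine le_trans ?_ h6
      have h7 : 1 ≤ (NM R δ V s (1 - ε) : ℝ) := by
        have : 0 < NM R δ V s (1 - ε) := card_pos.2 ⟨n, mem_filter.2 ⟨hn, by linarith⟩⟩
        exact_mod_cast this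
      nlinarith [Real.exp_pos ((1 - ε) * (k * δ) * Real.log (1 - ε))]
  have h3 : (((seqs S k).filter (fun s => ¬ ∀ n ∈ V, |(hit R s n : ℝ) - k * δ| ≤ ε * (k * δ))).card : ℝ) ≤
      ((seqs S k).filter (fun s => Real.exp ((1 + ε) * (k * δ) * Real.log (1 + ε)) ≤ Z (1 + ε) V (hit R s))).card +
      ((seqs S k).filter (fun s => Real.exp ((1 - ε) * (k * δ) * Real.log (1 - ε)) ≤ Z (1 - ε) V (hit R s))).card := by
    exact_mod_cast (card_le_card hsub).trans (card_union_le _ _)
  linarith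

end Pool.Agent.Q145.LD
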