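import Pool.Agent.Q145.LD.Extreme

set_option autoImplicit false
set_option maxHeartbeats 4000000

/-! # Many steps, quantitative; windows of a long sequence -/

namespace Pool.Agent.Q145.LD

open Finset Filter
open Pool.Agent.Q145.RA (seqs card_seqs Reg card_filter_inst kap surv)

open scoped Classical

variable {α β : Type}

theorem I_le_half (u : ℝ) (hu : 1 ≤ u) : I u ≤ (u - 1) ^ 2 / 2 := by
  have h0 : 0 < u := by linarith
  have h1 : Real.log u ≤ Real.sinh (Real.log u) := Real.self_le_sinh_iff.2 (Real.log_nonneg hu)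
  rw [Real.sinh_log h0] at h1
  unfold I
  have h2 : u * Real.log u ≤ u * ((u - u⁻¹) / 2) := mul_le_mul_of_nonneg_left h1 h0.le
  have h3 : u * ((u - u⁻¹) / 2) = (u ^ 2 - 1) / 2 := by
    field_simp
  nlinarith

theorem half_le_I (u : ℝ) (h0 : 0 < u) (hu : u ≤ 1) : (u - 1) ^ 2 / 2 ≤ I u := by
  have h1 : Real.sinh (Real.log u) ≤ Real.log u := Real.sinh_le_self_iff.2 (Real.log_nonpos h0.le hu)
  rw [Real.sinh_log h0] at h1
  unfold I
  have h2 : u * ((u - u⁻¹) / 2) ≤ u * Real.log u := mul_le_mul_of_nonneg_left h1 h0.le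
  have h3 : u * ((u - u⁻¹) / 2) = (u ^ 2 - 1) / 2 := by
    field_simp
  nlinarith

theorem I_sym (ε : ℝ) (hε : 0 < ε) (hε1 : ε < 1) : I (1 + ε) ≤ I (1 - ε) := by
  have h1 := I_le_half (1 + ε) (by linarith)
  have h2 := half_le_I (1 - ε) (by linarith) (by linarith)
  have h3 : (1 + ε - 1) ^ 2 / 2 = (1 - ε - 1) ^ 2 / 2 := by ring
  linarith

/-- one tail, quantitative -/
theorem far1q (lam η δ J : ℝ) (hl : 0 < lam) (hJ : J ≤ I lam - |lam - 1| * η) (hδ : 0 ≤ δ) (S : Finset β) (V : Finset α)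
    (R : α → β → Prop) (hR : Reg η δ S V R) (k : ℕ) :
    (((seqs S k).filter (fun s => Real.exp (lam * (k * δ) * Real.log lam) ≤ Z lam V (hit R s))).card : ℝ) ≤
      V.card * Real.exp (-(J * (k * δ))) * (S.card : ℝ) ^ k := by
  have e1 := fst η δ lam hl R S V V hR (Subset.refl _) k
    (Real.exp (lam * (k * δ) * Real.log lam)) (Real.exp_pos _)
  refine e1.trans ?_
  rw [mul_comm]
  apply mul_le_mul_of_nonneg_right _ (pow_nonneg (Nat.cast_nonneg _) _)
  rw [mul_div_assoc, ← Real.exp_sub]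
  apply mul_le_mul_of_nonneg_left _ (Nat.cast_nonneg _)
  apply Real.exp_le_exp.2
  have e2 : (k : ℝ) * (δ * (lam - 1 + |lam - 1| * η)) - lam * (k * δ) * Real.log lam =
      -((I lam - |lam - 1| * η) * (k * δ)) := by
    unfold I
    ring
  rw [e2]
  have e3 : J * (k * δ) ≤ (I lam - |lam - 1| * η) * (k * δ) := mul_le_mul_of_nonneg_right hJ (by positivity)
  linarith

/-- many steps: every point gets the expected number of hits -/
theorem farq (ε γ : ℝ) (hε : 0 < ε) (hε1 : ε < 1) (hγ : 0 < γ) : ∃ η : ℝ, 0 < η ∧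
    ∀ (δ : ℝ) (S : Finset β) (V : Finset α) (R : α → β → Prop), 0 < δ → Reg η δ S V R →
    ∀ k : ℕ, (((seqs S k).filter (fun s => ¬ ∀ n ∈ V, |(hit R s n : ℝ) - k * δ| ≤ ε * (k * δ))).card : ℝ) ≤
      2 * (V.card * Real.exp (-((1 - γ) * I (1 + ε) * (k * δ)))) * (S.card : ℝ) ^ k := by
  have hI := I_pos (1 + ε) (by linarith) (by linarith)
  have hs := I_sym ε hε hε1
  refine ⟨γ * I (1 + ε) / ε, by positivity, fun δ S V R hδ hR k => ?_⟩
  have hη : ε * (γ * I (1 + ε) / ε) = γ * I (1 + ε) := by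
    field_simp
  have c1 := far1q (1 + ε) _ δ ((1 - γ) * I (1 + ε)) (by linarith) (by
    have : |1 + ε - 1| = ε := by
      rw [add_sub_cancel_left, abs_of_pos hε]
    rw [this, hη]
    linarith) hδ.le S V R hR k
  have c2 := far1q (1 - ε) _ δ ((1 - γ) * I (1 + ε)) (by linarith) (by
    have : |1 - ε - 1| = ε := by
      rw [sub_sub_cancel_left, abs_neg, abs_of_pos hε]
    rw [this, hη]
    linarith) hδ.le S V R hR k
  have hsub : (seqs S k).filter (fun s => ¬ ∀ n ∈ V, |(hit R s n : ℝ) - k * δ| ≤ ε * (k * δ)) ⊆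
      (seqs S k).filter (fun s => Real.exp ((1 + ε) * (k * δ) * Real.log (1 + ε)) ≤ Z (1 + ε) V (hit R s)) ∪
      (seqs S k).filter (fun s => Real.exp ((1 - ε) * (k * δ) * Real.log (1 - ε)) ≤ Z (1 - ε) V (hit R s)) := by
    intro s hs
    rw [mem_filter] at hs
    obtain ⟨h3, h4⟩ := hs
    push Not at h4
    obtain ⟨n, hn, h5⟩ := h4
    rw [lt_abs] at h5
    rw [mem_union, mem_filter, mem_filter]
    rcases h5 with h5 | h5
    · left
      refine ⟨h3, ?_⟩
      have h6 := (tail_Z R δ V s (1 + ε) (by linarith)).1 (by linarith)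
      refine le_trans ?_ h6
      have h7 : 1 ≤ (NP R δ V s (1 + ε) : ℝ) := by
        have : 0 < NP R δ V s (1 + ε) := card_pos.2 ⟨n, mem_filter.2 ⟨hn, by linarith⟩⟩
        exact_mod_cast this
      nlinarith [Real.exp_pos ((1 + ε) * (k * δ) * Real.log (1 + ε))]
    · right
      refine ⟨h3, ?_⟩
      have h6 := (tail_Z R δ V s (1 - ε) (by linarith)).2 (by linarith)
      refine le_trans ?_ h6
      have h7 : 1 ≤ (NM R δ V s (1 - ε) : ℝ) := by
        have : 0 < NM R δ V s (1 - ε) := card_pos.2 ⟨n, mem_filter.2 ⟨hn, by linarith⟩⟩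
        exact_mod_cast this
      nlinarith [Real.exp_pos ((1 - ε) * (k * δ) * Real.log (1 - ε))]
  have h3 : (((seqs S k).filter (fun s => ¬ ∀ n ∈ V, |(hit R s n : ℝ) - k * δ| ≤ ε * (k * δ))).card : ℝ) ≤
      ((seqs S k).filter (fun s => Real.exp ((1 + ε) * (k * δ) * Real.log (1 + ε)) ≤ Z (1 + ε) V (hit R s))).card +
      ((seqs S k).filter (fun s => Real.exp ((1 - ε) * (k * δ) * Real.log (1 - ε)) ≤ Z (1 - ε) V (hit R s))).card := by
    exact_mod_cast (card_le_card hsub).trans (card_union_le _ _)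
  linarith

/-- the number of hits in a window -/
noncomputable def whit {K : ℕ} (R : α → β → Prop) (s : Fin K → β) (j k : ℕ) (n : α) : ℕ :=
  ∑ i : Fin K, if j ≤ (i : ℕ) ∧ (i : ℕ) < j + k ∧ R n (s i) then 1 else 0

theorem whit_append_right (R : α → β → Prop) {j m : ℕ} (s : Fin j → β) (t : Fin m → β) (k : ℕ) :
    whit R (Fin.append s t) j k = whit R t 0 k := by
  funext n
  unfold whit
  rw [Fin.sum_univ_add]
  have h1 : ∑ i : Fin j, (if j ≤ ((Fin.castAdd m i : Fin (j + m)) : ℕ) ∧ ((Fin.castAdd m i : Fin (j + m)) : ℕ) < j + k ∧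
      R n (Fin.append s t (Fin.castAdd m i)) then 1 else 0) = 0 := by
    apply sum_eq_zero
    intro i _
    rw [if_neg]
    rintro ⟨h, _⟩
    rw [Fin.val_castAdd] at h
    have := i.2
    omega
  rw [h1, zero_add]
  apply sum_congr rfl
  intro i _
  rw [Fin.append_right, Fin.val_natAdd]
  have h2 : (j ≤ j + (i : ℕ) ∧ j + (i : ℕ) < j + k ∧ R n (t i)) ↔ (0 ≤ (i : ℕ) ∧ (i : ℕ) < 0 + k ∧ R n (t i)) := by
    constructor
    · rintro ⟨_, h, h'⟩
      exact ⟨Nat.zero_le _, by omega, h'⟩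
    · rintro ⟨_, h, h'⟩
      exact ⟨by omega, by omega, h'⟩
  by_cases h : (0 ≤ (i : ℕ) ∧ (i : ℕ) < 0 + k ∧ R n (t i))
  · rw [if_pos h, if_pos (h2.2 h)]
  · rw [if_neg h, if_neg (fun h' => h (h2.1 h'))]

theorem whit_append_left (R : α → β → Prop) {k m : ℕ} (s : Fin k → β) (t : Fin m → β) :
    whit R (Fin.append s t) 0 k = hit R s := by
  funext n
  unfold whit hit
  rw [Fin.sum_univ_add]
  have h1 : ∑ i : Fin m, (if 0 ≤ ((Fin.natAdd k i : Fin (k + m)) : ℕ) ∧ ((Fin.natAdd k i : Fin (k + m)) : ℕ) < 0 + k ∧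
      R n (Fin.append s t (Fin.natAdd k i)) then 1 else 0) = 0 := by
    apply sum_eq_zero
    intro i _
    rw [if_neg]
    rintro ⟨_, h, _⟩
    rw [Fin.val_natAdd] at h
    omega
  rw [h1, add_zero]
  apply sum_congr rfl
  intro i _
  rw [Fin.append_left, Fin.val_castAdd]
  by_cases h : R n (s i)
  · rw [if_pos h, if_pos ⟨Nat.zero_le _, by have := i.2; omega, h⟩]
  · rw [if_neg h, if_neg (fun h' => h h'.2.2)]

theorem card_const (S : Finset β) (m : ℕ) (p : Prop) :
    ((seqs S m).filter (fun _ => p)).card = if p then S.card ^ m else 0 := by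
  by_cases h : p
  · rw [if_pos h, filter_true_of_mem (fun _ _ => h), card_seqs]
  · rw [if_neg h, filter_false_of_mem (fun _ _ => h), card_empty]

theorem card_window (R : α → β → Prop) (S : Finset β) (K j k : ℕ) (h : j + k ≤ K) (P : (α → ℕ) → Prop) :
    ((seqs S K).filter (fun s => P (whit R s j k))).card =
      S.card ^ (K - k) * ((seqs S k).filter (fun s => P (hit R s))).card := by
  obtain ⟨r, rfl⟩ : ∃ r, K = j + (k + r) := ⟨K - j - k, by omega⟩
  rw [card_append]
  have h1 : ∀ s ∈ seqs S j, ((seqs S (k + r)).filter (fun t => P (whit R (Fin.append s t) j k))).card =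
      S.card ^ r * ((seqs S k).filter (fun s => P (hit R s))).card := by
    intro s _
    have e1 : ((seqs S (k + r)).filter (fun t => P (whit R (Fin.append s t) j k))).card =
        ((seqs S (k + r)).filter (fun t => P (whit R t 0 k))).card := by
      apply congrArg
      apply filter_congr
      intro t _
      rw [whit_append_right]
    rw [e1, card_append]
    have e2 : ∀ t ∈ seqs S k, ((seqs S r).filter (fun w => P (whit R (Fin.append t w) 0 k))).card =
        if P (hit R t) then S.card ^ r else 0 := by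
      intro t _
      rw [← card_const]
      apply congrArg
      apply filter_congr
      intro w _
      rw [whit_append_left]
    rw [sum_congr rfl e2, ← sum_filter, sum_const, smul_eq_mul, mul_comm]
  rw [sum_congr rfl h1, sum_const, card_seqs, smul_eq_mul, ← mul_assoc, ← pow_add]
  congr 2
  omega

/-- **All windows.** -/
theorem windows (ε γ : ℝ) (hε : 0 < ε) (hε1 : ε < 1) (hγ : 0 < γ) (hγ1 : γ ≤ 1) : ∃ (η : ℝ) (X₀ : ℕ), 0 < η ∧
    ∀ (δ : ℝ) (S : Finset β) (V : Finset α) (R : α → β → Prop), 0 < δ → Reg η δ S V R → X₀ ≤ V.card →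
    ∀ K : ℕ, (((seqs S K).filter (fun s => ¬ ∀ j k : ℕ, j + k ≤ K →
      (1 + γ) * Real.log (V.card * (K : ℝ) ^ 2) ≤ I (1 + ε) * (k * δ) →
      ∀ n ∈ V, |(whit R s j k n : ℝ) - k * δ| ≤ ε * (k * δ))).card : ℝ) ≤ γ * (S.card : ℝ) ^ K := by
  have hI := I_pos (1 + ε) (by linarith) (by linarith)
  obtain ⟨η, hη, h1⟩ := farq (α := α) (β := β) ε (γ / 4) hε hε1 (by positivity)
  have hl' : Tendsto (fun Y : ℕ => Real.log Y) atTop atTop :=
    Real.tendsto_log_atTop.comp tendsto_natCast_atTop_atTop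
  obtain ⟨X₀, hX₀⟩ := eventually_atTop.1 ((hl'.eventually (ev_exp (γ / 2) (γ / 2) (by positivity) (by positivity))).and
    (eventually_ge_atTop 3))
  refine ⟨η, X₀, hη, fun δ S V R hδ hR hX K => ?_⟩
  obtain ⟨g1, g3⟩ := hX₀ V.card hX
  have hSK : (0 : ℝ) ≤ (S.card : ℝ) ^ K := pow_nonneg (Nat.cast_nonneg _) _
  have hXr : (3 : ℝ) ≤ V.card := by exact_mod_cast g3
  rcases Nat.eq_zero_or_pos K with hK | hK
  · -- no windows
    have : (seqs S K).filter (fun s => ¬ ∀ j k : ℕ, j + k ≤ K →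
      (1 + γ) * Real.log (V.card * (K : ℝ) ^ 2) ≤ I (1 + ε) * (k * δ) →
      ∀ n ∈ V, |(whit R s j k n : ℝ) - k * δ| ≤ ε * (k * δ)) = ∅ := by
      apply filter_eq_empty_iff.2
      intro s _
      rw [not_not]
      intro j k hjk _ n _
      have hk : k = 0 := by omega
      have h2 : whit R s j k n = 0 := by
        unfold whit
        apply sum_eq_zero
        intro i _
        have := i.2
        omega
      rw [h2, hk]
      simp
    rw [this, card_empty, Nat.cast_zero]
    positivity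
  · have hKr : (1 : ℝ) ≤ K := by exact_mod_cast hK
    set D : ℝ := V.card * (K : ℝ) ^ 2 with hD
    have hDV : (V.card : ℝ) ≤ D := by
      rw [hD]
      have : (1 : ℝ) ≤ (K : ℝ) ^ 2 := one_le_pow₀ hKr
      nlinarith
    have hD0 : 0 < D := by linarith
    have hDl : Real.log V.card ≤ Real.log D := Real.log_le_log (by linarith) hDV
    have hDl0 : 0 < Real.log D := (Real.log_pos (by linarith)).trans_le hDl
    set J : Finset (ℕ × ℕ) := (range K ×ˢ Icc 1 K).filter (fun p => p.1 + p.2 ≤ K ∧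
      (1 + γ) * Real.log D ≤ I (1 + ε) * (p.2 * δ)) with hJ
    have hJc : (J.card : ℝ) ≤ (K : ℝ) ^ 2 := by
      have h2 : J.card ≤ K * K := by
        refine (card_le_card (filter_subset _ _)).trans ?_
        rw [card_product, card_range, Nat.card_Icc, Nat.add_sub_cancel]
      rw [sq]
      exact_mod_cast h2
    have hsub : (seqs S K).filter (fun s => ¬ ∀ j k : ℕ, j + k ≤ K →
        (1 + γ) * Real.log D ≤ I (1 + ε) * (k * δ) →
        ∀ n ∈ V, |(whit R s j k n : ℝ) - k * δ| ≤ ε * (k * δ)) ⊆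
        J.biUnion (fun p => (seqs S K).filter (fun s => ¬ ∀ n ∈ V, |(whit R s p.1 p.2 n : ℝ) - p.2 * δ| ≤
          ε * (p.2 * δ))) := by
      intro s hs
      rw [mem_filter] at hs
      obtain ⟨h3, h4⟩ := hs
      by_contra h5
      apply h4
      intro j k hjk hk
      have hk0 : 0 < k := by
        by_contra h
        have h0 : k = 0 := by omega
        rw [h0, Nat.cast_zero, zero_mul, mul_zero] at hk
        nlinarith
      by_contra h6
      apply h5
      rw [mem_biUnion]
      refine ⟨(j, k), mem_filter.2 ⟨mem_product.2 ⟨mem_range.2 ?_, mem_Icc.2 ⟨hk0, ?_⟩⟩, hjk, hk⟩,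
        mem_filter.2 ⟨h3, h6⟩⟩
      · show j < K
        omega
      · show k ≤ K
        omega
    have hone : ∀ p ∈ J, (((seqs S K).filter (fun s => ¬ ∀ n ∈ V, |(whit R s p.1 p.2 n : ℝ) - p.2 * δ| ≤
          ε * (p.2 * δ))).card : ℝ) ≤ 2 * (V.card * Real.exp (-((1 + γ / 2) * Real.log D))) * (S.card : ℝ) ^ K := by
      rintro ⟨j, k⟩ hp
      obtain ⟨h3, h4, h5⟩ := mem_filter.1 hp
      show (((seqs S K).filter (fun s => ¬ ∀ n ∈ V, |(whit R s j k n : ℝ) - k * δ| ≤ ε * (k * δ))).card : ℝ) ≤ _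
      have h4' : j + k ≤ K := h4
      have h5' : (1 + γ) * Real.log D ≤ I (1 + ε) * (k * δ) := h5
      have e1 := card_window R S K j k h4' (fun f => ¬ ∀ n ∈ V, |(f n : ℝ) - k * δ| ≤ ε * (k * δ))
      have e2 : ((seqs S K).filter (fun s => ¬ ∀ n ∈ V, |(whit R s j k n : ℝ) - k * δ| ≤ ε * (k * δ))).card =
          S.card ^ (K - k) * ((seqs S k).filter (fun s => ¬ ∀ n ∈ V, |(hit R s n : ℝ) - k * δ| ≤ ε * (k * δ))).card := by
        rw [card_filter_inst _ _ _ (fun _ => Classical.propDecidable _),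
          card_filter_inst (seqs S k) _ _ (fun _ => Classical.propDecidable _)]
        exact e1
      rw [e2]
      push_cast
      have e3 := h1 δ S V R hδ hR k
      have e4 : 2 * (V.card * Real.exp (-((1 - γ / 4) * I (1 + ε) * (k * δ)))) ≤
          2 * (V.card * Real.exp (-((1 + γ / 2) * Real.log D))) := by
        apply mul_le_mul_of_nonneg_left _ (by norm_num)
        apply mul_le_mul_of_nonneg_left _ (by linarith)
        apply Real.exp_le_exp.2
        have e5 : (1 - γ / 4) * ((1 + γ) * Real.log D) ≤ (1 - γ / 4) * (I (1 + ε) * (k * δ)) :=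
          mul_le_mul_of_nonneg_left h5' (by linarith)
        have e6 : (1 + γ / 2) * Real.log D ≤ (1 - γ / 4) * ((1 + γ) * Real.log D) := by
          rw [← mul_assoc]
          apply mul_le_mul_of_nonneg_right _ hDl0.le
          nlinarith
        linarith
      have e7 : (S.card : ℝ) ^ K = (S.card : ℝ) ^ (K - k) * (S.card : ℝ) ^ k := by
        rw [← pow_add]
        congr 1
        omega
      rw [e7]
      calc (S.card : ℝ) ^ (K - k) * (((seqs S k).filter (fun s => ¬ ∀ n ∈ V, |(hit R s n : ℝ) - k * δ| ≤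
            ε * (k * δ))).card : ℝ) ≤ (S.card : ℝ) ^ (K - k) *
            (2 * (V.card * Real.exp (-((1 - γ / 4) * I (1 + ε) * (k * δ)))) * (S.card : ℝ) ^ k) :=
            mul_le_mul_of_nonneg_left e3 (pow_nonneg (Nat.cast_nonneg _) _)
        _ ≤ (S.card : ℝ) ^ (K - k) * (2 * (V.card * Real.exp (-((1 + γ / 2) * Real.log D))) * (S.card : ℝ) ^ k) := by
            apply mul_le_mul_of_nonneg_left _ (pow_nonneg (Nat.cast_nonneg _) _)
            exact mul_le_mul_of_nonneg_right e4 (pow_nonneg (Nat.cast_nonneg _) _)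
        _ = _ := by ring
    have htot : (((seqs S K).filter (fun s => ¬ ∀ j k : ℕ, j + k ≤ K →
        (1 + γ) * Real.log D ≤ I (1 + ε) * (k * δ) →
        ∀ n ∈ V, |(whit R s j k n : ℝ) - k * δ| ≤ ε * (k * δ))).card : ℝ) ≤
        ∑ p ∈ J, (((seqs S K).filter (fun s => ¬ ∀ n ∈ V, |(whit R s p.1 p.2 n : ℝ) - p.2 * δ| ≤
          ε * (p.2 * δ))).card : ℝ) := by
      exact_mod_cast (card_le_card hsub).trans card_biUnion_le
    refine htot.trans ((sum_le_sum hone).trans ?_)
    rw [sum_const, nsmul_eq_mul, ← mul_assoc]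
    apply mul_le_mul_of_nonneg_right _ hSK
    have hexpD : Real.exp (-((1 + γ / 2) * Real.log D)) = Real.exp (-(γ / 2 * Real.log D)) / D := by
      have : -((1 + γ / 2) * Real.log D) = -(γ / 2 * Real.log D) - Real.log D := by ring
      rw [this, Real.exp_sub, Real.exp_log hD0]
    have e8 : Real.exp (-(γ / 2 * Real.log D)) ≤ γ / 2 := by
      refine le_trans (Real.exp_le_exp.2 ?_) g1
      have := mul_le_mul_of_nonneg_left hDl (show 0 ≤ γ / 2 by positivity)
      linarith
    rw [hexpD]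
    calc (J.card : ℝ) * (2 * (V.card * (Real.exp (-(γ / 2 * Real.log D)) / D))) ≤
        (K : ℝ) ^ 2 * (2 * (V.card * (Real.exp (-(γ / 2 * Real.log D)) / D))) :=
          mul_le_mul_of_nonneg_right hJc (by positivity)
      _ = 2 * Real.exp (-(γ / 2 * Real.log D)) * ((V.card * (K : ℝ) ^ 2) / D) := by ring
      _ = 2 * Real.exp (-(γ / 2 * Real.log D)) := by
          rw [← hD, div_self hD0.ne', mul_one]
      _ ≤ γ := by linarith

end Pool.Agent.Q145.LD
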