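import Pool.Agent.Q145.LD.Tails
import Pool.Agent.Q145.RA.All

set_option autoImplicit false
set_option maxHeartbeats 4000000

/-! # All parameters simultaneously -/

namespace Pool.Agent.Q145.LD

open Finset Filter
open Pool.Agent.Q145.RA (seqs card_seqs Reg card_filter_inst kap surv)

open scoped Classical

variable {α β : Type}

theorem I_tangent (a b : ℝ) (ha : 0 < a) (hb : 0 ≤ b) : I a + (b - a) * Real.log a ≤ I b := by
  unfold I
  rcases eq_or_lt_of_le hb with h | h
  · rw [← h]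
    simp
    nlinarith
  · have h1 := Real.one_sub_inv_le_log_of_pos (show 0 < b / a by positivity)
    rw [Real.log_div h.ne' ha.ne', inv_div] at h1
    have h2 : b * (1 - a / b) ≤ b * (Real.log b - Real.log a) := mul_le_mul_of_nonneg_left h1 hb
    have h3 : b * (1 - a / b) = b - a := by
      field_simp
    nlinarith

theorem I_mono (a b : ℝ) (ha : 1 ≤ a) (hb : a ≤ b) : I a ≤ I b := by
  have h1 := I_tangent a b (by linarith) (by linarith)
  have h2 := mul_nonneg (sub_nonneg.2 hb) (Real.log_nonneg ha)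
  linarith

theorem I_anti (a b : ℝ) (ha : 0 ≤ a) (hb : a ≤ b) (hb1 : b ≤ 1) : I b ≤ I a := by
  rcases eq_or_lt_of_le (ha.trans hb) with h | h
  · have : a = b := le_antisymm hb (by linarith)
    rw [this]
  · have h1 := I_tangent b a h ha
    have h2 := mul_nonneg_of_nonpos_of_nonpos (sub_nonpos.2 hb) (Real.log_nonpos h.le hb1)
    linarith

theorem I_cont : Continuous I := by
  unfold I
  exact (continuous_const.sub continuous_id).add Real.continuous_mul_log

theorem I_unif (U ω : ℝ) (hω : 0 < ω) : ∃ h : ℝ, 0 < h ∧ ∀ x y : ℝ, 0 ≤ x → x ≤ U → 0 ≤ y → y ≤ U → |x - y| ≤ h →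
    |I x - I y| ≤ ω := by
  have h1 := (isCompact_Icc (a := (0 : ℝ)) (b := U)).uniformContinuousOn_of_continuous I_cont.continuousOn
  rw [Metric.uniformContinuousOn_iff] at h1
  obtain ⟨d, hd, h2⟩ := h1 ω hω
  refine ⟨d / 2, by positivity, fun x y hx hx' hy hy' hxy => ?_⟩
  have := h2 x ⟨hx, hx'⟩ y ⟨hy, hy'⟩ (by
    rw [Real.dist_eq]
    linarith)
  rw [Real.dist_eq] at this
  exact this.le

/-- the multifractal profile of the numbers of hits -/
def Prof (ε δ : ℝ) (R : α → β → Prop) (V : Finset α) {k : ℕ} (s : Fin k → β) : Prop :=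
  (∀ u : ℝ, 1 ≤ u → (NP R δ V s u : ℝ) ≤ (V.card : ℝ) ^ (1 - kap δ V.card k * I u + ε) ∧
    (kap δ V.card k * I u ≤ 1 - ε → (V.card : ℝ) ^ (1 - kap δ V.card k * I u - ε) ≤ NP R δ V s u)) ∧
  (∀ u : ℝ, 0 ≤ u → u ≤ 1 → (NM R δ V s u : ℝ) ≤ (V.card : ℝ) ^ (1 - kap δ V.card k * I u + ε) ∧
    (kap δ V.card k * I u ≤ 1 - ε → (V.card : ℝ) ^ (1 - kap δ V.card k * I u - ε) ≤ NM R δ V s u))

/-- the window property -/
def Wn (ε δ u : ℝ) (R : α → β → Prop) (V : Finset α) {k : ℕ} (s : Fin k → β) : Prop :=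
  0 < u → kap δ V.card k * I u ≤ 1 - ε → (V.card : ℝ) ^ (1 - kap δ V.card k * I u - ε) ≤
      ((V.filter (fun n => |(hit R s n : ℝ) - u * (k * δ)| ≤ ε * Real.log V.card)).card : ℝ)

/-- no hits at all -/
def Nh (ε δ : ℝ) (R : α → β → Prop) (V : Finset α) {k : ℕ} (s : Fin k → β) : Prop :=
  kap δ V.card k ≤ 1 - ε → (V.card : ℝ) ^ (1 - kap δ V.card k - ε) ≤ NM R δ V s 0

/-- everything at a grid point -/
def GP (ε δ u : ℝ) (R : α → β → Prop) (V : Finset α) {k : ℕ} (s : Fin k → β) : Prop :=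
  Tl ε δ u R V s ∧ Wn ε δ u R V s ∧ Nh ε δ R V s

theorem NM_zero (R : α → β → Prop) (δ : ℝ) (V : Finset α) {k : ℕ} (s : Fin k → β) : NM R δ V s 0 = surv R V s := by
  unfold NM surv
  congr 1
  apply filter_congr
  intro n _
  rw [zero_mul]
  constructor
  · intro h i hi
    have h4 : hit R s n = 0 := by
      exact_mod_cast le_antisymm h (Nat.cast_nonneg _)
    unfold hit at h4
    have h5 := (sum_eq_zero_iff.1 h4) i (mem_univ _)
    rw [if_pos hi] at h5
    exact one_ne_zero h5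
  · intro h
    have : hit R s n = 0 := by
      unfold hit
      apply sum_eq_zero
      intro i _
      rw [if_neg (h i)]
    rw [this]
    simp

theorem card_or (S : Finset β) (k : ℕ) (P Q : (Fin k → β) → Prop) (a b : ℝ)
    (h1 : (((seqs S k).filter (fun s => ¬ P s)).card : ℝ) ≤ a)
    (h2 : (((seqs S k).filter (fun s => ¬ Q s)).card : ℝ) ≤ b) :
    (((seqs S k).filter (fun s => ¬ (P s ∧ Q s))).card : ℝ) ≤ a + b := by
  have h3 : (seqs S k).filter (fun s => ¬ (P s ∧ Q s)) ⊆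
      (seqs S k).filter (fun s => ¬ P s) ∪ (seqs S k).filter (fun s => ¬ Q s) := by
    intro s hs
    rw [mem_union, mem_filter, mem_filter]
    rw [mem_filter] at hs
    by_cases h : P s
    · exact Or.inr ⟨hs.1, fun h' => hs.2 ⟨h, h'⟩⟩
    · exact Or.inl ⟨hs.1, h⟩
  have h4 : (((seqs S k).filter (fun s => ¬ (P s ∧ Q s))).card : ℝ) ≤
      ((seqs S k).filter (fun s => ¬ P s)).card + ((seqs S k).filter (fun s => ¬ Q s)).card := by
    exact_mod_cast (card_le_card h3).trans (card_union_le _ _)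
  linarith

theorem card_all (S : Finset β) (k : ℕ) (J : Finset ℕ) (P : ℕ → (Fin k → β) → Prop) (a : ℝ)
    (h1 : ∀ j ∈ J, (((seqs S k).filter (fun s => ¬ P j s)).card : ℝ) ≤ a) :
    (((seqs S k).filter (fun s => ¬ (∀ j ∈ J, P j s))).card : ℝ) ≤ J.card * a := by
  have h3 : (seqs S k).filter (fun s => ¬ (∀ j ∈ J, P j s)) ⊆
      J.biUnion (fun j => (seqs S k).filter (fun s => ¬ P j s)) := by
    intro s hs
    rw [mem_filter] at hs
    obtain ⟨h4, h5⟩ := hs
    push Not at h5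
    obtain ⟨j, hj, h6⟩ := h5
    exact mem_biUnion.2 ⟨j, hj, mem_filter.2 ⟨h4, h6⟩⟩
  have h4 : (((seqs S k).filter (fun s => ¬ (∀ j ∈ J, P j s))).card : ℝ) ≤
      ∑ j ∈ J, (((seqs S k).filter (fun s => ¬ P j s)).card : ℝ) := by
    exact_mod_cast (card_le_card h3).trans card_biUnion_le
  refine h4.trans ((sum_le_sum h1).trans (le_of_eq ?_))
  rw [sum_const, nsmul_eq_mul]

/-- a grid point, eventually -/
theorem grid_pt (u K ε : ℝ) (hu : 0 ≤ u) (hK : 0 < K) (hε : 0 < ε) (hε1 : ε ≤ 1) : ∀ᶠ m : ℕ in atTop,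
    ∀ (δ : ℝ) (S : Finset β) (V : Finset α) (R : α → β → Prop), 0 < δ → Reg (1 / (m + 1 : ℝ)) δ S V R →
    m ≤ V.card → ∀ k : ℕ, kap δ V.card k ≤ K →
    (((seqs S k).filter (fun s => ¬ GP ε δ u R V s)).card : ℝ) ≤ 3 * ε * (S.card : ℝ) ^ k := by
  obtain ⟨η₁, X₁, hη₁, h1⟩ := tails (α := α) (β := β) u K ε hu hK hε
  obtain ⟨X₂, h2⟩ := Pool.Agent.Q145.RA.low (α := α) (β := β) ε hε hε1
  obtain ⟨η₃, X₃, hη₃, h3⟩ : ∃ (η : ℝ) (X₀ : ℕ),
    0 < η ∧ ∀ (δ : ℝ) (S : Finset β) (V : Finset α) (R : α → β → Prop), 0 < δ → Reg η δ S V R →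
    X₀ ≤ V.card → ∀ k : ℕ, kap δ V.card k ≤ K →
    (((seqs S k).filter (fun s => ¬ Wn ε δ u R V s)).card : ℝ) ≤ ε * (S.card : ℝ) ^ k := by
    rcases eq_or_lt_of_le hu with h0 | h0
    · refine ⟨1, 0, one_pos, fun δ S V R _ _ _ k _ => ?_⟩
      have : (seqs S k).filter (fun s => ¬ Wn ε δ u R V s) = ∅ := by
        apply filter_eq_empty_iff.2
        intro s _
        rw [not_not]
        intro h _
        exact absurd h (by rw [← h0]; exact lt_irrefl _)
      rw [this, card_empty, Nat.cast_zero]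
      exact mul_nonneg hε.le (pow_nonneg (Nat.cast_nonneg _) _)
    · obtain ⟨η, X₀, hη, _, h⟩ := window_law (α := α) (β := β) u K ε h0 hK hε hε1
      refine ⟨η, X₀, hη, fun δ S V R hδ hR hX k hk => ?_⟩
      by_cases hc : kap δ V.card k * I u ≤ 1 - ε
      · refine le_trans ?_ (h δ S V R hδ hR hX k hk hc)
        apply Nat.cast_le.2
        apply card_le_card
        intro s hs
        rw [mem_filter] at hs ⊢
        refine ⟨hs.1, fun h' => hs.2 fun _ _ => h'⟩
      · have : (seqs S k).filter (fun s => ¬ Wn ε δ u R V s) = ∅ := by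
          apply filter_eq_empty_iff.2
          intro s _
          rw [not_not]
          intro _ h'
          exact absurd h' hc
        rw [this, card_empty, Nat.cast_zero]
        exact mul_nonneg hε.le (pow_nonneg (Nat.cast_nonneg _) _)
  have hev : ∀ η : ℝ, 0 < η → ∀ᶠ m : ℕ in atTop, 1 / (m + 1 : ℝ) ≤ η := by
    intro η hη
    have := tendsto_one_div_add_atTop_nhds_zero_nat (𝕜 := ℝ)
    exact (this.eventually (gt_mem_nhds hη)).mono fun _ h => h.le
  filter_upwards [eventually_ge_atTop X₁, eventually_ge_atTop X₂, eventually_ge_atTop X₃, hev η₁ hη₁,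
    hev (ε / 100) (by positivity), hev η₃ hη₃, eventually_ge_atTop 3] with m a1 a2 a3 a4 a5 a6 a7
  intro δ S V R hδ hR hm k hk
  have c1 := h1 δ S V R hδ (Reg.mono hδ.le a4 hR) (a1.trans hm) k hk
  have c3 := h3 δ S V R hδ (Reg.mono hδ.le a6 hR) (a3.trans hm) k hk
  have c2 : (((seqs S k).filter (fun s => ¬ Nh ε δ R V s)).card : ℝ) ≤ ε * (S.card : ℝ) ^ k := by
    by_cases hc : kap δ V.card k ≤ 1 - ε
    · refine le_trans ?_ (h2 δ S V R hδ (Reg.mono hδ.le a5 hR) (a2.trans hm) k hc)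
      apply Nat.cast_le.2
      apply card_le_card
      intro s hs
      rw [mem_filter] at hs ⊢
      refine ⟨hs.1, ?_⟩
      by_contra h'
      apply hs.2
      intro _
      rw [NM_zero]
      exact (not_le.1 h').le
    · have : (seqs S k).filter (fun s => ¬ Nh ε δ R V s) = ∅ := by
        apply filter_eq_empty_iff.2
        intro s _
        rw [not_not]
        intro h'
        exact absurd h' hc
      rw [this, card_empty, Nat.cast_zero]
      exact mul_nonneg hε.le (pow_nonneg (Nat.cast_nonneg _) _)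
  have c4 := card_or S k _ _ _ _ c3 c2
  have c5 := card_or S k (fun s => Tl ε δ u R V s) (fun s => Wn ε δ u R V s ∧ Nh ε δ R V s) _ _ c1
    ((le_of_eq (congrArg Nat.cast (card_filter_inst _ _ _ _))).trans c4)
  refine (le_of_eq (congrArg Nat.cast ?_)).trans (c5.trans (le_of_eq ?_))
  · unfold GP
    exact card_filter_inst _ _ _ _
  · ring

end Pool.Agent.Q145.LD
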