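import Pool.Agent.Q145.LD.Block

set_option autoImplicit false
set_option maxHeartbeats 4000000

/-! # Iteration of the blocks -/

namespace Pool.Agent.Q145.LD

open Finset Filter
open Pool.Agent.Q145.RA (seqs card_seqs Reg card_filter_inst kap)

open scoped Classical

variable {α β : Type}

theorem mem_seqs (S : Finset β) {k : ℕ} (s : Fin k → β) : s ∈ seqs S k ↔ ∀ i, s i ∈ S := by
  unfold seqs
  rw [Fintype.mem_piFinset]

theorem card_append (S : Finset β) (a b : ℕ) (P : (Fin (a + b) → β) → Prop) :
    ((seqs S (a + b)).filter P).card =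
      ∑ s ∈ seqs S a, ((seqs S b).filter (fun t => P (Fin.append s t))).card := by
  rw [card_eq_sum_card_fiberwise (f := fun s : Fin (a + b) → β => fun i : Fin a => s (Fin.castAdd b i)) (t := seqs S a)
    (fun s hs => (mem_seqs S _).2 fun i => (mem_seqs S s).1 (mem_filter.1 hs).1 _)]
  apply sum_congr rfl
  intro s hs
  apply card_bij' (fun w _ => fun i : Fin b => w (Fin.natAdd a i)) (fun t _ => Fin.append s t)
  · intro w hw
    rw [mem_filter, mem_filter] at hw
    obtain ⟨⟨h1, h2⟩, h3⟩ := hw
    have h4 : Fin.append s (fun i : Fin b => w (Fin.natAdd a i)) = w := by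
      rw [← h3]
      exact Fin.append_castAdd_natAdd
    rw [mem_filter, h4]
    exact ⟨(mem_seqs S _).2 fun i => (mem_seqs S w).1 h1 _, h2⟩
  · intro t ht
    rw [mem_filter] at ht
    rw [mem_filter, mem_filter]
    refine ⟨⟨(mem_seqs S _).2 fun i => ?_, ht.2⟩, ?_⟩
    · refine Fin.addCases (fun j => ?_) (fun j => ?_) i
      · rw [Fin.append_left]
        exact (mem_seqs S s).1 hs j
      · rw [Fin.append_right]
        exact (mem_seqs S t).1 ht.1 j
    · funext i
      exact Fin.append_left _ _ _
  · intro w hw
    have h3 := (mem_filter.1 hw).2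
    rw [← h3]
    exact Fin.append_castAdd_natAdd
  · intro t _
    funext i
    exact Fin.append_right _ _ _

theorem hit_append (R : α → β → Prop) {a b : ℕ} (s : Fin a → β) (t : Fin b → β) (n : α) :
    hit R (Fin.append s t) n = hit R s n + hit R t n := by
  unfold hit
  rw [Fin.sum_univ_add]
  congr 1
  · apply sum_congr rfl
    intro i _
    rw [Fin.append_left]
  · apply sum_congr rfl
    intro i _
    rw [Fin.append_right]

theorem hit_le (R : α → β → Prop) {k : ℕ} (s : Fin k → β) (n : α) : hit R s n ≤ k := by
  unfold hit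
  calc ∑ i : Fin k, (if R n (s i) then 1 else 0) ≤ ∑ _i : Fin k, 1 := by
        apply sum_le_sum
        intro i _
        split_ifs <;> simp
    _ = k := by simp

/-- too few points of `W` in the window -/
def Bad (R : α → β → Prop) (δ A lam e l : ℝ) (W : Finset α) {k : ℕ} (s : Fin k → β) : Prop :=
  ¬ (W.card * Real.exp (-l) ≤ ((W.filter (fun n => |(hit R s n : ℝ) - lam * (k * δ)| ≤ e * A)).card : ℝ))

theorem card_not_le (S : Finset β) (k : ℕ) (P : (Fin k → β) → Prop) [DecidablePred P] :
    (((seqs S k).filter P).card : ℝ) ≤ (S.card : ℝ) ^ k := by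
  have := card_le_card (filter_subset P (seqs S k))
  rw [card_seqs] at this
  exact_mod_cast this

/-- iteration -/
theorem iter (δ A L ε₁ ε₂ lam c : ℝ) (hL : 0 ≤ L) (S : Finset β) (V : Finset α) (R : α → β → Prop) (k : ℕ)
    (hblock : ∀ W ⊆ V, Real.exp (c * A) ≤ W.card →
      (((seqs S k).filter (fun s => Bad R δ A lam ε₁ L W s)).card : ℝ) ≤ ε₂ * (S.card : ℝ) ^ k) (hε₂ : 0 ≤ ε₂) :
    ∀ (j : ℕ) (W : Finset α), W ⊆ V → Real.exp (c * A) ≤ W.card * Real.exp (-(j * L)) →
      (((seqs S (k * j)).filter (fun s => Bad R δ A lam (j * ε₁) (j * L) W s)).card : ℝ) ≤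
      j * ε₂ * (S.card : ℝ) ^ (k * j) := by
  have hS0 : (0 : ℝ) ≤ S.card := Nat.cast_nonneg _
  intro j
  induction j with
  | zero =>
    intro W hW hc
    have h1 : (seqs S (k * 0)).filter (fun s => Bad R δ A lam ((0 : ℕ) * ε₁) ((0 : ℕ) * L) W s) = ∅ := by
      apply filter_eq_empty_iff.2
      intro s _
      unfold Bad
      rw [not_not]
      have h2 : W.filter (fun n => |(hit R s n : ℝ) - lam * ((k * 0 : ℕ) * δ)| ≤ (0 : ℕ) * ε₁ * A) = W := by
        apply filter_true_of_mem
        intro n _
        have h3 : hit R s n = 0 := Nat.le_zero.1 (hit_le R s n)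
        rw [h3]
        simp
      rw [h2]
      simp
    rw [h1, card_empty]
    simp
  | succ j ih =>
    intro W hW hc
    have hj0 : (0 : ℝ) ≤ (j : ℝ) * L := by positivity
    have hW1 : Real.exp (c * A) ≤ W.card := by
      refine hc.trans ?_
      have : Real.exp (-(((j + 1 : ℕ) : ℝ) * L)) ≤ 1 := Real.exp_le_one_iff.2 (by push_cast; nlinarith)
      nlinarith [Nat.cast_nonneg (α := ℝ) W.card]
    have e1 : k * (j + 1) = k + k * j := by ring
    have hgen : ∀ N : ℕ, N = k + k * j →
      (((seqs S N).filter (fun s => Bad R δ A lam ((j + 1 : ℕ) * ε₁) ((j + 1 : ℕ) * L) W s)).card : ℝ) ≤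
      (j + 1 : ℕ) * ε₂ * (S.card : ℝ) ^ N := by
      rintro N rfl
      rw [card_append, Nat.cast_sum]
      have hb := hblock W hW hW1
      -- the good and the bad first blocks
      rw [← sum_filter_add_sum_filter_not (seqs S k) (fun s => Bad R δ A lam ε₁ L W s)]
      have p2 : ∑ s ∈ (seqs S k).filter (fun s => Bad R δ A lam ε₁ L W s),
        (((seqs S (k * j)).filter (fun t => Bad R δ A lam ((j + 1 : ℕ) * ε₁) ((j + 1 : ℕ) * L) W
          (Fin.append s t))).card : ℝ) ≤ ε₂ * (S.card : ℝ) ^ k * (S.card : ℝ) ^ (k * j) := by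
        calc _ ≤ ∑ s ∈ (seqs S k).filter (fun s => Bad R δ A lam ε₁ L W s), (S.card : ℝ) ^ (k * j) :=
              sum_le_sum fun s _ => card_not_le S (k * j) _
          _ ≤ _ := by
              rw [sum_const, nsmul_eq_mul]
              exact mul_le_mul_of_nonneg_right hb (by positivity)
      have p1 : ∑ s ∈ (seqs S k).filter (fun s => ¬ Bad R δ A lam ε₁ L W s),
        (((seqs S (k * j)).filter (fun t => Bad R δ A lam ((j + 1 : ℕ) * ε₁) ((j + 1 : ℕ) * L) W
          (Fin.append s t))).card : ℝ) ≤ (S.card : ℝ) ^ k * (j * ε₂ * (S.card : ℝ) ^ (k * j)) := by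
        calc _ ≤ ∑ s ∈ (seqs S k).filter (fun s => ¬ Bad R δ A lam ε₁ L W s),
              (j * ε₂ * (S.card : ℝ) ^ (k * j)) := by
              apply sum_le_sum
              intro s hs
              have hs2 := (mem_filter.1 hs).2
              unfold Bad at hs2
              rw [not_not] at hs2
              set W₁ := W.filter (fun n => |(hit R s n : ℝ) - lam * (k * δ)| ≤ ε₁ * A) with hW₁
              have hsplit : W.card * Real.exp (-((j + 1 : ℕ) * L)) = (W.card * Real.exp (-L)) * Real.exp (-(j * L)) := by
                rw [mul_assoc, ← Real.exp_add]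
                congr 2
                push_cast
                ring
              have hle : W.card * Real.exp (-((j + 1 : ℕ) * L)) ≤ W₁.card * Real.exp (-(j * L)) := by
                rw [hsplit]
                exact mul_le_mul_of_nonneg_right hs2 (Real.exp_pos _).le
              have hc1 : Real.exp (c * A) ≤ W₁.card * Real.exp (-(j * L)) := hc.trans hle
              refine le_trans ?_ (ih W₁ ((filter_subset _ _).trans hW) hc1)
              apply Nat.cast_le.2
              apply card_le_card
              intro t ht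
              rw [mem_filter] at ht ⊢
              refine ⟨ht.1, fun h => ht.2 ?_⟩
              refine hle.trans (h.trans ?_)
              apply Nat.cast_le.2
              apply card_le_card
              intro n hn
              rw [mem_filter] at hn ⊢
              obtain ⟨hn1, hn2⟩ := hn
              rw [hW₁, mem_filter] at hn1
              refine ⟨hn1.1, ?_⟩
              rw [hit_append]
              push_cast at hn2 ⊢
              have e2 : (hit R s n : ℝ) + hit R t n - lam * ((k + k * j) * δ) =
                  ((hit R s n : ℝ) - lam * (k * δ)) + ((hit R t n : ℝ) - lam * (k * j * δ)) := by ring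
              rw [e2]
              refine (abs_add_le _ _).trans ?_
              linarith [hn1.2]
          _ ≤ _ := by
              rw [sum_const, nsmul_eq_mul]
              apply mul_le_mul_of_nonneg_right _ (by positivity)
              exact card_not_le S k _
      have e3 : ((j + 1 : ℕ) : ℝ) * ε₂ * (S.card : ℝ) ^ (k + k * j) =
          ε₂ * (S.card : ℝ) ^ k * (S.card : ℝ) ^ (k * j) + (S.card : ℝ) ^ k * (j * ε₂ * (S.card : ℝ) ^ (k * j)) := by
        rw [pow_add]
        push_cast
        ring
      rw [e3]
      refine add_le_add ?_ ?_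
      · exact p2
      · exact p1
    exact hgen _ e1

end Pool.Agent.Q145.LD
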