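import Pool.Agent.Q145.RA.MultLaw

set_option autoImplicit false
set_option maxHeartbeats 4000000

/-! # Regularity of the classes modulo `d` for random multipliers -/

namespace Pool.Agent.Q145.LD

open Finset Filter
open Pool.Agent.Q145.RA

open scoped Classical

/-- **Regularity of the classes to almost all moduli.** -/
theorem mult_reg (ε η : ℝ) (hε : 0 < ε) (hη : 0 < η) (N : ℕ) : ∃ D₀ : ℕ, ∀ D Y : ℕ, D₀ ≤ D →
    (D : ℝ) ^ (1 + ε) ≤ Y →
    ∃ B ⊆ Icc 1 D, (B.card : ℝ) ≤ ε * D ∧ ∀ d ∈ Icc 1 D, d ∉ B → 7 ≤ d ∧ N ≤ d.totient ∧ 0 < dens d Y ∧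
    dens d Y ≤ 1 ∧ Reg η (dens d Y) (Icc 1 Y) (Cl d) (fun a s => (a + s * d).Prime) := by
  set X₁ : ℕ := N with hX₁
  obtain ⟨Y₀, h2⟩ := reg_mult (min η 1) (lt_min hη one_pos)
  obtain ⟨D₁, h3⟩ := degM (min η 1) (ε / 2) (lt_min hη one_pos) (min_le_right _ _) (by positivity)
  obtain ⟨C, hC, hrat⟩ := ratio_log
  have hT : Tendsto (fun Y : ℕ => (Y : ℝ)) atTop atTop := tendsto_natCast_atTop_atTop
  obtain ⟨D₂, h4⟩ := eventually_atTop.1 ((growthM (C * (X₁ + 1)) 1 (by positivity) one_pos).and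
    (((hT.const_mul_atTop (show 0 < ε / 2 by positivity)).eventually_ge_atTop 7)))
  have a1 : ∀ᶠ D : ℕ in atTop, Real.log (D : ℝ) ^ 2 ≤ ε / 2 * D := by
    have h5 := (isLittleO_log_rpow_rpow_atTop (2 : ℝ) (show (0 : ℝ) < 1 by norm_num)).bound
      (show (0 : ℝ) < ε / 2 by positivity)
    filter_upwards [hT.eventually h5, hT.eventually_ge_atTop 1] with D h6 h7
    rw [show (2 : ℝ) = ((2 : ℕ) : ℝ) by norm_num, Real.rpow_natCast, Real.rpow_one,
      Real.norm_of_nonneg (by positivity), Real.norm_of_nonneg (by linarith)] at h6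
    exact h6
  obtain ⟨D₃, h5⟩ := eventually_atTop.1 a1
  refine ⟨max (max D₁ D₂) (max D₃ (Y₀ + 3)), fun D Y hD hDY => ?_⟩
  have hD₁ : D₁ ≤ D := ((le_max_left _ _).trans (le_max_left _ _)).trans hD
  have hD₂ : D₂ ≤ D := ((le_max_right _ _).trans (le_max_left _ _)).trans hD
  have hD₃ : D₃ ≤ D := ((le_max_left _ _).trans (le_max_right _ _)).trans hD
  have hDY₀ : Y₀ + 3 ≤ D := ((le_max_right _ _).trans (le_max_right _ _)).trans hD
  obtain ⟨⟨g1, g2, g3⟩, g4⟩ := h4 D hD₂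
  have g5 := h5 D hD₃
  have hDr : (3 : ℝ) ≤ D := by
    have : 3 ≤ D := by omega
    exact_mod_cast this
  have hDYr : (D : ℝ) ≤ Y := by
    refine le_trans ?_ hDY
    calc (D : ℝ) = (D : ℝ) ^ (1 : ℝ) := (Real.rpow_one _).symm
      _ ≤ (D : ℝ) ^ (1 + ε) := Real.rpow_le_rpow_of_exponent_le (by linarith) (by linarith)
  have hDYn : D ≤ Y := by exact_mod_cast hDYr
  have hDY2 : (D : ℝ) ^ (1 + ε / 2) ≤ Y := le_trans (Real.rpow_le_rpow_of_exponent_le (by linarith) (by linarith)) hDY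
  obtain ⟨B, hB1, hB2, hB3⟩ := h3 D Y hD₁ hDY2
  refine ⟨B ∪ (Icc 1 D).filter (fun d : ℕ => (d : ℝ) ≤ ε / 2 * D), union_subset hB1 (filter_subset _ _), ?_, ?_⟩
  · have c1 : (((Icc 1 D).filter (fun d : ℕ => (d : ℝ) ≤ ε / 2 * D)).card : ℝ) ≤ ε / 2 * D := by
      have e1 : ((Icc 1 D).filter (fun d : ℕ => (d : ℝ) ≤ ε / 2 * D)).card ≤ (Icc 1 ⌊ε / 2 * (D : ℝ)⌋₊).card := by
        apply card_le_card
        intro d hd
        obtain ⟨h6, h7⟩ := mem_filter.1 hd
        exact mem_Icc.2 ⟨(mem_Icc.1 h6).1, Nat.le_floor h7⟩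
      rw [Nat.card_Icc, Nat.add_sub_cancel] at e1
      have e2 : (((Icc 1 D).filter (fun d : ℕ => (d : ℝ) ≤ ε / 2 * D)).card : ℝ) ≤ (⌊ε / 2 * (D : ℝ)⌋₊ : ℝ) := by
        exact_mod_cast e1
      exact e2.trans (Nat.floor_le (by positivity))
    have c2 : ((B ∪ (Icc 1 D).filter (fun d : ℕ => (d : ℝ) ≤ ε / 2 * D)).card : ℝ) ≤
        B.card + (((Icc 1 D).filter (fun d : ℕ => (d : ℝ) ≤ ε / 2 * D)).card : ℝ) := by
      exact_mod_cast card_union_le _ _
    linarith
  · intro d hd hdB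
    rw [mem_union, not_or] at hdB
    obtain ⟨hdB1, hdB2⟩ := hdB
    have hd1 := mem_Icc.1 hd
    have hdD : ε / 2 * (D : ℝ) < d := by
      by_contra h6
      exact hdB2 (mem_filter.2 ⟨hd, not_lt.1 h6⟩)
    have hd7r : (7 : ℝ) < d := lt_of_le_of_lt g4 hdD
    have hd7 : 7 ≤ d := by
      have : 7 < d := by exact_mod_cast hd7r
      omega
    have hdY : d ≤ Y := hd1.2.trans hDYn
    obtain ⟨r1, r2⟩ := h2 d Y hd7 (by omega) hdY (fun a ha1 ha2 ha3 => hB3 d hd hdB1 a ha1 ha2 ha3)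
    have hφ0 : (0 : ℝ) < d.totient := by exact_mod_cast Nat.totient_pos.2 (by omega)
    have hld0 : 0 < Real.log (d * Y : ℝ) := by
      apply Real.log_pos
      nlinarith
    have hdens0 : 0 < dens d Y := by
      unfold Pool.Agent.Q145.RA.dens
      positivity
    -- the size of the totient
    have hX : X₁ ≤ (Cl d).card := by
      rw [card_Cl d (by omega)]
      have e1 := hrat d (Real.log D) (by omega) g1 (Real.log_le_log (by linarith) (by exact_mod_cast hd1.2))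
      rw [div_le_iff₀ hφ0] at e1
      have hG0 : 0 < Real.log (Real.log (D : ℝ)) := by linarith
      have e2 : C * (X₁ + 1) * Real.log (Real.log (D : ℝ)) ≤ Real.log (D : ℝ) ^ 2 := by
        have f1 : Real.log (Real.log (D : ℝ)) ≤ Real.log (Real.log (D : ℝ)) ^ 4 := le_self_pow₀ g2 (by norm_num)
        have f2 : C * (X₁ + 1) * Real.log (Real.log (D : ℝ)) ≤ C * (X₁ + 1) * Real.log (Real.log (D : ℝ)) ^ 4 :=
          mul_le_mul_of_nonneg_left f1 (by positivity)
        nlinarith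
      have e3 : C * (X₁ + 1) * Real.log (Real.log (D : ℝ)) ≤ C * Real.log (Real.log (D : ℝ)) * d.totient := by
        linarith
      have e4 : (X₁ + 1 : ℝ) * (C * Real.log (Real.log (D : ℝ))) ≤ d.totient * (C * Real.log (Real.log (D : ℝ))) := by
        linarith
      have e5 : (X₁ + 1 : ℝ) ≤ d.totient := le_of_mul_le_mul_right e4 (by positivity)
      have e6 : X₁ + 1 ≤ d.totient := by exact_mod_cast e5
      omega
    have hreg : Reg η (dens d Y) (Icc 1 Y) (Cl d) (fun a s => (a + s * d).Prime) := by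
      have hmin : min η 1 ≤ η := min_le_left _ _
      have hY0 : (0 : ℝ) ≤ ((Icc 1 Y).card : ℝ) := Nat.cast_nonneg _
      have hlV : 0 ≤ Real.log ((Cl d).card : ℝ) := Real.log_natCast_nonneg _
      refine ⟨fun n hn => le_trans ?_ (r2.lo n hn), fun H hH hc => (r2.hi H hH hc).trans ?_,
        fun H hH hc => (r2.two H hH hc).trans ?_, fun H hH hc => (r2.three H hH hc).trans ?_⟩
      · apply mul_le_mul_of_nonneg_right _ hY0
        apply mul_le_mul_of_nonneg_right _ hdens0.le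
        linarith
      · apply mul_le_mul_of_nonneg_right _ hY0
        apply mul_le_mul_of_nonneg_right _ hdens0.le
        linarith
      · apply mul_le_mul_of_nonneg_right _ hY0
        exact mul_le_mul_of_nonneg_right hmin hdens0.le
      · apply mul_le_mul_of_nonneg_right _ hY0
        exact mul_le_mul_of_nonneg_right hmin (div_nonneg hdens0.le hlV)
    refine ⟨hd7, ?_, hdens0, r1, hreg⟩
    rw [← card_Cl d (by omega)]
    exact hX

end Pool.Agent.Q145.LD
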