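import Pool.Agent.Q145.LD.Tilt

set_option autoImplicit false
set_option maxHeartbeats 4000000

/-! # The potential argument for exponential weights, first moments -/

namespace Pool.Agent.Q145.LD

open Finset Filter
open Pool.Agent.Q145.RA (seqs card_seqs Reg card_filter_inst)

open scoped Classical

variable {α β : Type}

theorem hit_cons (R : α → β → Prop) {k : ℕ} (a : β) (s : Fin k → β) (n : α) :
    hit R (Fin.cons a s : Fin (k + 1) → β) n = (if R n a then 1 else 0) + hit R s n := by
  unfold hit
  rw [Fin.sum_univ_succ, Fin.cons_zero]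
  congr 1

theorem hit_succ (R : α → β → Prop) {k : ℕ} (s : Fin (k + 1) → β) (n : α) :
    hit R s n = (if R n (s 0) then 1 else 0) + hit R (Fin.tail s) n := by
  unfold hit
  rw [Fin.sum_univ_succ]
  rfl

/-- the number of the sequences with a property of the hits -/
noncomputable def cntP (S : Finset β) (R : α → β → Prop) (P : (α → ℕ) → Prop) (k : ℕ) (h : α → ℕ) : ℕ :=
  ((seqs S k).filter (fun s => P (fun n => h n + hit R s n))).card

theorem cntP_zero (S : Finset β) (R : α → β → Prop) (P : (α → ℕ) → Prop) (h : α → ℕ) :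
    cntP S R P 0 h = if P h then 1 else 0 := by
  unfold cntP
  have h2 : seqs S 0 = {Fin.elim0} := by
    unfold seqs
    ext s
    rw [Fintype.mem_piFinset, mem_singleton]
    constructor
    · intro _
      exact Subsingleton.elim _ _
    · intro _ i
      exact i.elim0
  have h3 : ∀ s : Fin 0 → β, (fun n => h n + hit R s n) = h := by
    intro s
    funext n
    unfold hit
    simp
  rw [h2, filter_singleton]
  simp only [h3]
  split_ifs <;> simp

theorem cntP_succ (S : Finset β) (R : α → β → Prop) (P : (α → ℕ) → Prop) (k : ℕ) (h : α → ℕ) :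
    cntP S R P (k + 1) h = ∑ a ∈ S, cntP S R P k (stp R h a) := by
  unfold cntP seqs
  rw [card_eq_sum_card_fiberwise (f := fun s : Fin (k + 1) → β => s 0) (t := S)
    (fun s hs => (Fintype.mem_piFinset.1 (mem_filter.1 hs).1) 0)]
  apply sum_congr rfl
  intro a ha
  have key : ∀ s : Fin k → β, (fun n => h n + hit R (Fin.cons a s : Fin (k + 1) → β) n) =
      (fun n => stp R h a n + hit R s n) := by
    intro s
    funext n
    rw [hit_cons]
    unfold stp
    ring
  refine card_bij' (fun s _ => Fin.tail s) (fun s _ => Fin.cons a s) ?_ ?_ ?_ ?_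
  · intro s hs
    obtain ⟨h1, h2⟩ := mem_filter.1 hs
    obtain ⟨h3, h4⟩ := mem_filter.1 h1
    refine mem_filter.2 ⟨Fintype.mem_piFinset.2 fun i => (Fintype.mem_piFinset.1 h3) i.succ, ?_⟩
    rw [← key, ← h2, Fin.cons_self_tail]
    exact h4
  · intro s hs
    obtain ⟨h1, h2⟩ := mem_filter.1 hs
    refine mem_filter.2 ⟨mem_filter.2 ⟨Fintype.mem_piFinset.2 ?_, ?_⟩, ?_⟩
    · intro i
      refine Fin.cases ?_ ?_ i
      · rw [Fin.cons_zero]
        exact ha
      · intro j
        rw [Fin.cons_succ]
        exact (Fintype.mem_piFinset.1 h1) j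
    · rw [key]
      exact h2
    · exact Fin.cons_zero _ _
  · intro s hs
    obtain ⟨h1, h2⟩ := mem_filter.1 hs
    rw [← h2]
    exact Fin.cons_self_tail s
  · intro s _
    exact Fin.tail_cons _ _

theorem cntP_eq_zero (S : Finset β) (R : α → β → Prop) (P : (α → ℕ) → Prop) (k : ℕ) (h : α → ℕ)
    (hP : ∀ s : Fin k → β, ¬ P (fun n => h n + hit R s n)) : cntP S R P k h = 0 := by
  unfold cntP
  rw [card_eq_zero]
  apply filter_false_of_mem
  intro s _
  exact hP s

theorem cntP_le (S : Finset β) (R : α → β → Prop) (P : (α → ℕ) → Prop) (k : ℕ) (h : α → ℕ) :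
    cntP S R P k h ≤ S.card ^ k := by
  unfold cntP
  rw [← card_seqs]
  exact card_filter_le _ _

/-- the rate of the potential -/
noncomputable def rate (η δ lam M : ℝ) : ℝ :=
  δ * (-(lam - 1) + |lam - 1| * η + (lam - 1) ^ 2 / min 1 lam * (2 / M + η))

/-- **The potential argument.** -/
theorem pot (η δ lam Wm M m : ℝ) (hη : 0 ≤ η) (hη1 : η ≤ 1) (hδ : 0 ≤ δ) (hl : 0 < lam) (hM : 0 < M) (hm : 0 ≤ m)
    (R : α → β → Prop) (S : Finset β) (V W : Finset α) (hR : Reg η δ S V R) (hWV : W ⊆ V) (hW : W.Nonempty)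
    (hcase : (1 ≤ lam ∧ M * Wm ≤ W.card) ∨ (lam ≤ 1 ∧ Wm = 1 ∧ M ≤ m)) :
    ∀ (k : ℕ) (h : α → ℕ), (cntP S R (fun f => (∀ n ∈ W, lam ^ f n ≤ Wm) ∧ Z lam W f ≤ m) k h : ℝ) ≤
      (S.card : ℝ) ^ k * (m * Real.exp (rate η δ lam M * k) / Z lam W h) := by
  intro k
  induction k with
  | zero =>
    intro h
    have hz0 := Z_pos lam hl W hW h
    rw [cntP_zero, pow_zero, one_mul, Nat.cast_zero, mul_zero, Real.exp_zero, mul_one]
    split_ifs with h1
    · rw [Nat.cast_one, le_div_iff₀ hz0, one_mul]
      exact h1.2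
    · rw [Nat.cast_zero]
      positivity
  | succ k ih =>
    intro h
    have hz0 := Z_pos lam hl W hW h
    by_cases hw : ∀ n ∈ W, lam ^ h n ≤ Wm
    · rcases le_or_gt (M * Wm) (Z lam W h) with hZ | hZ
      · -- the main case
        have h1 := step_pot η δ lam Wm M hη hη1 hδ hl hM R S V W hR hWV hW h hw hZ
        rw [cntP_succ]
        push_cast
        calc ∑ a ∈ S, (cntP S R (fun f => (∀ n ∈ W, lam ^ f n ≤ Wm) ∧ Z lam W f ≤ m) k (stp R h a) : ℝ)
            ≤ ∑ a ∈ S, (S.card : ℝ) ^ k * (m * Real.exp (rate η δ lam M * k) / Z lam W (stp R h a)) :=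
              sum_le_sum fun a _ => ih (stp R h a)
          _ = (S.card : ℝ) ^ k * (m * Real.exp (rate η δ lam M * k)) * ∑ a ∈ S, 1 / Z lam W (stp R h a) := by
              rw [mul_sum]
              apply sum_congr rfl
              intro a _
              ring
          _ ≤ (S.card : ℝ) ^ k * (m * Real.exp (rate η δ lam M * k)) *
              (S.card * Real.exp (rate η δ lam M) / Z lam W h) :=
              mul_le_mul_of_nonneg_left h1 (by positivity)
          _ = (S.card : ℝ) ^ (k + 1) * (m * Real.exp (rate η δ lam M * (k + 1)) / Z lam W h) := by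
              rw [mul_add, mul_one, Real.exp_add]
              ring
      · -- the small case
        rcases hcase with ⟨h1, h2⟩ | ⟨h1, h2, h3⟩
        · exfalso
          have h3 : (W.card : ℝ) ≤ Z lam W h := by
            unfold Z
            calc (W.card : ℝ) = ∑ _n ∈ W, (1 : ℝ) := by rw [sum_const, nsmul_eq_mul, mul_one]
              _ ≤ ∑ n ∈ W, lam ^ h n := sum_le_sum fun n _ => one_le_pow₀ h1
          linarith
        · rw [h2, mul_one] at hZ
          have h4 : (cntP S R (fun f => (∀ n ∈ W, lam ^ f n ≤ Wm) ∧ Z lam W f ≤ m) (k + 1) h : ℝ) ≤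
              (S.card : ℝ) ^ (k + 1) := by exact_mod_cast cntP_le S R _ (k + 1) h
          refine h4.trans (le_mul_of_one_le_right (by positivity) ?_)
          rw [le_div_iff₀ hz0, one_mul]
          have h5 : 0 ≤ rate η δ lam M := by
            unfold rate
            have e1 : 0 ≤ -(lam - 1) := by linarith
            have e2 : 0 ≤ (lam - 1) ^ 2 / min 1 lam * (2 / M + η) := by
              have : 0 < min 1 lam := lt_min one_pos hl
              positivity
            have e3 : 0 ≤ |lam - 1| * η := by positivity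
            exact mul_nonneg hδ (by linarith)
          have h6 : 1 ≤ Real.exp (rate η δ lam M * ((k + 1 : ℕ) : ℝ)) := Real.one_le_exp (by positivity)
          have h7 : 0 ≤ m := hm
          nlinarith
    · have h1 : cntP S R (fun f => (∀ n ∈ W, lam ^ f n ≤ Wm) ∧ Z lam W f ≤ m) (k + 1) h = 0 := by
        apply cntP_eq_zero
        rintro s ⟨h2, _⟩
        apply hw
        intro n hn
        rcases hcase with ⟨h3, _⟩ | ⟨h3, h4, _⟩
        · refine le_trans ?_ (h2 n hn)
          exact pow_le_pow_right₀ h3 (Nat.le_add_right _ _)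
        · rw [h4]
          exact pow_le_one₀ hl.le h3
      rw [h1, Nat.cast_zero]
      positivity

/-- the first moment of the weights -/
theorem sum_Z (lam : ℝ) (R : α → β → Prop) (S : Finset β) (W : Finset α) (k : ℕ) :
    ∑ s ∈ seqs S k, Z lam W (hit R s) =
      ∑ n ∈ W, ((S.card : ℝ) + (lam - 1) * ((S.filter (fun a => R n a)).card : ℝ)) ^ k := by
  unfold Z
  rw [sum_comm]
  apply sum_congr rfl
  intro n _
  have h1 : ∀ s : Fin k → β, lam ^ hit R s n = ∏ i, (if R n (s i) then lam else 1) := by
    intro s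
    unfold hit
    rw [← prod_pow_eq_pow_sum]
    apply prod_congr rfl
    intro i _
    split_ifs
    · rw [pow_one]
    · rw [pow_zero]
  simp_rw [h1]
  unfold seqs
  rw [← Finset.prod_univ_sum (t := fun _ : Fin k => S) (f := fun _ a => if R n a then lam else 1)]
  rw [prod_const, card_univ, Fintype.card_fin]
  congr 1
  have h2 : ∀ a ∈ S, (if R n a then lam else 1) = 1 + (lam - 1) * (if R n a then 1 else 0) := by
    intro a _
    split_ifs <;> ring
  rw [sum_congr rfl h2, sum_add_distrib, ← mul_sum, sum_const, nsmul_eq_mul, mul_one, ← sum_filter, sum_const,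
    nsmul_eq_mul, mul_one]

/-- **The first moment bound.** -/
theorem fst (η δ lam : ℝ) (hl : 0 < lam) (R : α → β → Prop) (S : Finset β)
    (V W : Finset α) (hR : Reg η δ S V R) (hWV : W ⊆ V) (k : ℕ) (z : ℝ) (hz : 0 < z) :
    (((seqs S k).filter (fun s => z ≤ Z lam W (hit R s))).card : ℝ) ≤
      (S.card : ℝ) ^ k * (W.card * Real.exp (k * (δ * (lam - 1 + |lam - 1| * η))) / z) := by
  have hS0 : (0 : ℝ) ≤ S.card := Nat.cast_nonneg _
  have hZ0 : ∀ s ∈ seqs S k, 0 ≤ Z lam W (hit R s) := fun s _ => sum_nonneg fun _ _ => (pow_pos hl _).le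
  have h1 : (((seqs S k).filter (fun s => z ≤ Z lam W (hit R s))).card : ℝ) * z ≤ ∑ s ∈ seqs S k, Z lam W (hit R s) := by
    calc (((seqs S k).filter (fun s => z ≤ Z lam W (hit R s))).card : ℝ) * z
        = ∑ _s ∈ (seqs S k).filter (fun s => z ≤ Z lam W (hit R s)), z := by rw [sum_const, nsmul_eq_mul]
      _ ≤ ∑ s ∈ (seqs S k).filter (fun s => z ≤ Z lam W (hit R s)), Z lam W (hit R s) :=
          sum_le_sum fun s hs => (mem_filter.1 hs).2
      _ ≤ _ := sum_le_sum_of_subset_of_nonneg (filter_subset _ _) (fun s hs _ => hZ0 s hs)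
  have h2 : ∑ s ∈ seqs S k, Z lam W (hit R s) ≤
      (S.card : ℝ) ^ k * (W.card * Real.exp (k * (δ * (lam - 1 + |lam - 1| * η)))) := by
    rw [sum_Z]
    have h4 : ∀ n ∈ W, ((S.card : ℝ) + (lam - 1) * ((S.filter (fun a => R n a)).card : ℝ)) ^ k ≤
        (S.card : ℝ) ^ k * Real.exp (k * (δ * (lam - 1 + |lam - 1| * η))) := by
      intro n hn
      have e1 := hR.lo n (hWV hn)
      have e2 : ((S.filter (fun a => R n a)).card : ℝ) ≤ (1 + η) * δ * S.card := by
        refine le_trans ?_ (hR.hi {n} (singleton_subset_iff.2 (hWV hn)) (card_singleton n))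
        have : (S.filter (fun a => R n a)).card ≤ (S.filter (fun a => ∀ m ∈ ({n} : Finset α), R m a)).card := by
          apply card_le_card
          intro a ha
          obtain ⟨h6, h7⟩ := mem_filter.1 ha
          refine mem_filter.2 ⟨h6, fun m hm => ?_⟩
          rw [mem_singleton.1 hm]
          exact h7
        exact_mod_cast this
      have e0 : ((S.filter (fun a => R n a)).card : ℝ) ≤ S.card := by exact_mod_cast card_filter_le _ _
      have e3 : (0 : ℝ) ≤ ((S.filter (fun a => R n a)).card : ℝ) := Nat.cast_nonneg _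
      set d : ℝ := ((S.filter (fun a => R n a)).card : ℝ) with hd
      have e4 : (lam - 1) * d ≤ S.card * (δ * (lam - 1 + |lam - 1| * η)) := by
        have f1 : |d - δ * S.card| ≤ η * (δ * S.card) := by
          rw [abs_le]
          constructor <;> linarith
        have f2 : (lam - 1) * d = (lam - 1) * (δ * S.card) + (lam - 1) * (d - δ * S.card) := by ring
        have f3 : (lam - 1) * (d - δ * S.card) ≤ |lam - 1| * (η * (δ * S.card)) := by
          calc (lam - 1) * (d - δ * S.card) ≤ |(lam - 1) * (d - δ * S.card)| := le_abs_self _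
            _ = |lam - 1| * |d - δ * S.card| := abs_mul _ _
            _ ≤ _ := mul_le_mul_of_nonneg_left f1 (abs_nonneg _)
        rw [f2]
        linarith
      have e5 : (S.card : ℝ) + (lam - 1) * d ≤ S.card * Real.exp (δ * (lam - 1 + |lam - 1| * η)) := by
        have f1 := Real.add_one_le_exp (δ * (lam - 1 + |lam - 1| * η))
        have f2 := mul_le_mul_of_nonneg_left f1 hS0
        linarith
      have e6 : 0 ≤ (S.card : ℝ) + (lam - 1) * d := by nlinarith
      calc ((S.card : ℝ) + (lam - 1) * d) ^ k ≤ (S.card * Real.exp (δ * (lam - 1 + |lam - 1| * η))) ^ k :=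
            pow_le_pow_left₀ e6 e5 k
        _ = _ := by rw [mul_pow, ← Real.exp_nat_mul]
    refine (sum_le_sum h4).trans (le_of_eq ?_)
    rw [sum_const, nsmul_eq_mul]
    ring
  rw [← mul_div_assoc, le_div_iff₀ hz]
  exact h1.trans h2

end Pool.Agent.Q145.LD
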