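import Pool.Agent.Q145.LD.Grid

set_option autoImplicit false
set_option maxHeartbeats 4000000

/-! # The profile of the numbers of hits -/

namespace Pool.Agent.Q145.LD

open Finset Filter
open Pool.Agent.Q145.RA (seqs card_seqs Reg card_filter_inst kap surv)

open scoped Classical

variable {α β : Type}

theorem NP_anti (R : α → β → Prop) (δ : ℝ) (hδ : 0 ≤ δ) (V : Finset α) {k : ℕ} (s : Fin k → β) (u v : ℝ) (h : u ≤ v) :
    (NP R δ V s v : ℝ) ≤ NP R δ V s u := by
  unfold NP
  apply card_filter_imp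
  intro n _ hn
  have : u * (k * δ) ≤ v * (k * δ) := mul_le_mul_of_nonneg_right h (by positivity)
  linarith

theorem NM_mono (R : α → β → Prop) (δ : ℝ) (hδ : 0 ≤ δ) (V : Finset α) {k : ℕ} (s : Fin k → β) (u v : ℝ) (h : u ≤ v) :
    (NM R δ V s u : ℝ) ≤ NM R δ V s v := by
  unfold NM
  apply card_filter_imp
  intro n _ hn
  have : u * (k * δ) ≤ v * (k * δ) := mul_le_mul_of_nonneg_right h (by positivity)
  linarith

theorem exp_one_lt_three : Real.exp 1 < 3 := lt_trans Real.exp_one_lt_d9 (by norm_num)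

theorem I_big (b : ℝ) (hb : 0 ≤ b) : b - 2 ≤ I b := by
  have h1 := I_tangent (Real.exp 1) b (Real.exp_pos _) hb
  have h2 : I (Real.exp 1) = 1 := by
    unfold I
    rw [Real.log_exp]
    ring
  rw [h2, Real.log_exp] at h1
  linarith [exp_one_lt_three]

theorem prof_of_grid (K ε ω ε₂ : ℝ) (M U : ℕ) (hK : 0 < K) (hε : 0 < ε) (hε1 : ε ≤ 1) (hM : 0 < M)
    (hU : 2 / ε + 2 ≤ U) (hω : K * ω ≤ ε / 4) (hε₂ : 0 < ε₂) (hε₂4 : ε₂ ≤ ε / 4) (hε₂M : ε₂ * M ≤ ε)
    (hI : ∀ x y : ℝ, 0 ≤ x → x ≤ U + 2 → 0 ≤ y → y ≤ U + 2 → |x - y| ≤ 2 / M → |I x - I y| ≤ ω)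
    (δ : ℝ) (V : Finset α) (R : α → β → Prop) (hδ : 0 < δ) (hX : 3 ≤ V.card) (k : ℕ)
    (hk : kap δ V.card k ≤ K) (hk' : ε ≤ kap δ V.card k) (s : Fin k → β)
    (hs : ∀ j ∈ range (M * (U + 2) + 1), GP ε₂ δ ((j : ℝ) / M) R V s) : Prof ε δ R V s := by
  have hkL := kap_mul δ V.card k hX
  unfold Prof
  set X : ℕ := V.card with hVX
  set κ := kap δ X k with hκ
  have hκ0 : 0 < κ := hε.trans_le hk'
  have hXr : (3 : ℝ) ≤ X := by exact_mod_cast hX
  have hX1 : (1 : ℝ) < X := by linarith
  have hA0 : 0 < Real.log (X : ℝ) := Real.log_pos hX1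
  have hMr : (0 : ℝ) < M := by exact_mod_cast hM
  have h2M : 0 < 2 / (M : ℝ) := by positivity
  have hω0 : 0 ≤ ω := by
    have := hI 0 0 le_rfl (by positivity) le_rfl (by positivity) (by rw [sub_zero, abs_zero]; exact h2M.le)
    exact (abs_nonneg _).trans this
  have hκω : κ * ω ≤ ε / 4 := (mul_le_mul_of_nonneg_right hk hω0).trans hω
  have hκI : ∀ x y : ℝ, 0 ≤ x → x ≤ U + 2 → 0 ≤ y → y ≤ U + 2 → |x - y| ≤ 2 / M → κ * I x ≤ κ * I y + ε / 4 := by
    intro x y h1 h2 h3 h4 h5
    have h6 := (abs_le.1 (hI x y h1 h2 h3 h4 h5)).2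
    have h7 : κ * (I x - I y) ≤ κ * ω := mul_le_mul_of_nonneg_left h6 hκ0.le
    linarith
  have hU1 : (1 : ℝ) ≤ U := by
    have : 0 < 2 / ε := by positivity
    linarith
  have hUI : 2 ≤ κ * I U := by
    have h1 := I_big U (by linarith)
    have h2 : 2 / ε ≤ I U := by linarith
    have h3 : ε * (2 / ε) ≤ κ * I U := mul_le_mul hk' h2 (by positivity) hκ0.le
    rwa [mul_div_cancel₀ _ hε.ne'] at h3
  have hrp : ∀ a b : ℝ, a ≤ b → (X : ℝ) ^ a ≤ (X : ℝ) ^ b := fun a b h =>
    Real.rpow_le_rpow_of_exponent_le hX1.le h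
  have hwin : ∀ v : ℝ, κ / M ≤ v → ε₂ * Real.log X ≤ v * Real.log X := by
    intro v hv
    apply mul_le_mul_of_nonneg_right _ hA0.le
    refine le_trans ?_ hv
    rw [le_div_iff₀ hMr]
    exact hε₂M.trans hk'
  constructor
  · intro u hu
    have hup : ∀ v : ℝ, 1 ≤ v → v ≤ U → (NP R δ V s v : ℝ) ≤ (X : ℝ) ^ (1 - κ * I v + ε / 2) := by
      intro v hv hvU
      set j : ℕ := ⌊v * M⌋₊ with hj
      have j1 : (j : ℝ) ≤ v * M := Nat.floor_le (by positivity)
      have j2 : v * M < j + 1 := Nat.lt_floor_add_one _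
      have j3 : M ≤ j := Nat.le_floor (by nlinarith)
      have j4 : j ≤ M * (U + 2) := by
        have : (j : ℝ) ≤ (M * (U + 2) : ℕ) := by
          push_cast
          nlinarith
        exact_mod_cast this
      have j5 : (1 : ℝ) ≤ j / M := by
        rw [le_div_iff₀ hMr, one_mul]
        exact_mod_cast j3
      have j6 : (j : ℝ) / M ≤ v := by
        rw [div_le_iff₀ hMr]
        exact j1
      have j7 : v - j / M ≤ 2 / M := by
        have : v ≤ (j + 1) / M := by
          rw [le_div_iff₀ hMr]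
          exact j2.le
        rw [add_div] at this
        have h8 : 1 / (M : ℝ) ≤ 2 / M := by
          apply div_le_div_of_nonneg_right _ hMr.le
          norm_num
        linarith
      have g1 := ((hs j (mem_range.2 (by omega))).1).1 j5
      refine (NP_anti R δ hδ.le V s _ _ j6).trans (g1.trans (hrp _ _ ?_))
      have g2 := hκI v (j / M) (by linarith) (by linarith) (by positivity) (by linarith)
        (by rw [abs_of_nonneg (by linarith)]; exact j7)
      rw [← hVX, ← hκ]
      linarith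
    refine ⟨?_, fun hc => ?_⟩
    · rcases le_or_gt u U with huU | huU
      · exact (hup u hu huU).trans (hrp _ _ (by linarith))
      · have g1 := (NP_anti R δ hδ.le V s U u huU.le).trans (hup U hU1 le_rfl)
        have g2 : (X : ℝ) ^ (1 - κ * I U + ε / 2) < 1 := Real.rpow_lt_one_of_one_lt_of_neg hX1 (by linarith)
        have g3 : NP R δ V s u = 0 := by
          have : (NP R δ V s u : ℝ) < 1 := g1.trans_lt g2
          have h9 : NP R δ V s u < 1 := by exact_mod_cast this
          omega
        rw [g3, Nat.cast_zero]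
        exact Real.rpow_nonneg (by linarith) _
    · have huU : u ≤ U := by
        by_contra h
        have h1 := I_mono U u hU1 (not_le.1 h).le
        have h2 : κ * I U ≤ κ * I u := mul_le_mul_of_nonneg_left h1 hκ0.le
        linarith
      set j : ℕ := ⌊u * M⌋₊ with hj
      have j1 : (j : ℝ) ≤ u * M := Nat.floor_le (by positivity)
      have j2 : u * M < j + 1 := Nat.lt_floor_add_one _
      have j4 : j + 2 ≤ M * (U + 2) := by
        have : (j + 2 : ℝ) ≤ (M * (U + 2) : ℕ) := by
          push_cast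
          have : (1 : ℝ) ≤ M := by exact_mod_cast hM
          nlinarith
        exact_mod_cast this
      have j6 : u + 1 / M ≤ ((j + 2 : ℕ) : ℝ) / M := by
        rw [le_div_iff₀ hMr, add_mul, div_mul_cancel₀ _ hMr.ne']
        push_cast
        linarith
      have j7 : ((j + 2 : ℕ) : ℝ) / M ≤ u + 2 / M := by
        rw [div_le_iff₀ hMr, add_mul, div_mul_cancel₀ _ hMr.ne']
        push_cast
        linarith
      have hM1 : 0 < 1 / (M : ℝ) := by positivity
      have hM2 : 2 / (M : ℝ) ≤ 2 := by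
        rw [div_le_iff₀ hMr]
        have : (1 : ℝ) ≤ M := by exact_mod_cast hM
        linarith
      have g2 := hκI (((j + 2 : ℕ) : ℝ) / M) u (by positivity) (by linarith) (by linarith) (by linarith)
        (by rw [abs_of_nonneg (by linarith)]; linarith)
      have g1 := ((hs (j + 2) (mem_range.2 (by omega))).2).1 (by positivity) (by
        rw [← hVX, ← hκ]
        linarith)
      rw [← hVX, ← hκ] at g1
      refine (hrp _ _ ?_).trans (g1.trans ?_)
      · linarith
      · unfold NP
        apply card_filter_imp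
        intro n _ hn
        have h1 := (abs_le.1 hn).1
        have h2 := mul_le_mul_of_nonneg_right j6 (show 0 ≤ (k : ℝ) * δ by positivity)
        have h3 := hwin (κ / M) le_rfl
        have h4 : 1 / (M : ℝ) * (k * δ) = κ / M * Real.log X := by
          rw [hkL]
          ring
        linarith
  · intro u hu hu1
    refine ⟨?_, fun hc => ?_⟩
    · set j : ℕ := ⌈u * M⌉₊ with hj
      have j1 : u * M ≤ j := Nat.le_ceil _
      have j2 : (j : ℝ) < u * M + 1 := Nat.ceil_lt_add_one (by positivity)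
      have j3 : j ≤ M := Nat.ceil_le.2 (by nlinarith)
      have j5 : (j : ℝ) / M ≤ 1 := by
        rw [div_le_iff₀ hMr, one_mul]
        exact_mod_cast j3
      have j6 : u ≤ (j : ℝ) / M := by
        rw [le_div_iff₀ hMr]
        exact j1
      have j7 : j / M - u ≤ 2 / M := by
        have : (j : ℝ) / M ≤ (u * M + 1) / M := div_le_div_of_nonneg_right j2.le hMr.le
        rw [add_div, mul_div_cancel_right₀ _ hMr.ne'] at this
        have h8 : 1 / (M : ℝ) ≤ 2 / M := by
          apply div_le_div_of_nonneg_right _ hMr.le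
          norm_num
        linarith
      have hjr : j < M * (U + 2) + 1 := by nlinarith
      have g1 := ((hs j (mem_range.2 hjr)).1).2 j5
      refine (NM_mono R δ hδ.le V s _ _ j6).trans (g1.trans (hrp _ _ ?_))
      have g2 := hκI u (j / M) hu (by linarith) (by positivity) (by linarith)
        (by rw [abs_sub_comm, abs_of_nonneg (by linarith)]; exact j7)
      rw [← hVX, ← hκ]
      linarith
    · set j : ℕ := ⌊u * M⌋₊ with hj
      have j1 : (j : ℝ) ≤ u * M := Nat.floor_le (by positivity)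
      have j2 : u * M < j + 1 := Nat.lt_floor_add_one _
      have j3 : j ≤ M := by
        have : (j : ℝ) ≤ M := by nlinarith
        exact_mod_cast this
      rcases Nat.lt_or_ge j 2 with hj2 | hj2
      · -- no hits
        have e1 : u ≤ 2 / M := by
          rw [le_div_iff₀ hMr]
          have : (j : ℝ) + 1 ≤ 2 := by exact_mod_cast (by omega : j + 1 ≤ 2)
          linarith
        have g2 := hκI 0 u le_rfl (by linarith) hu (by linarith) (by
          rw [zero_sub, abs_neg, abs_of_nonneg hu]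
          exact e1)
        rw [I_zero, mul_one] at g2
        have g1 := ((hs 0 (mem_range.2 (by omega))).2).2 (by
          rw [← hVX, ← hκ]
          linarith)
        rw [← hVX, ← hκ] at g1
        refine (hrp _ _ ?_).trans (g1.trans (NM_mono R δ hδ.le V s _ _ hu))
        linarith
      · have j6 : (((j - 1 : ℕ) : ℝ)) / M + 1 / M ≤ u := by
          rw [← add_div, div_le_iff₀ hMr]
          have : ((j - 1 : ℕ) : ℝ) + 1 = j := by
            rw [Nat.cast_sub (by omega)]
            push_cast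
            ring
          rw [this]
          exact j1
        have j7 : u ≤ (((j - 1 : ℕ) : ℝ)) / M + 2 / M := by
          rw [← add_div, le_div_iff₀ hMr]
          have : ((j - 1 : ℕ) : ℝ) + 2 = j + 1 := by
            rw [Nat.cast_sub (by omega)]
            push_cast
            ring
          rw [this]
          exact j2.le
        have hM1 : 0 < 1 / (M : ℝ) := by positivity
        have j8 : 0 < (((j - 1 : ℕ) : ℝ)) / M := by
          apply div_pos _ hMr
          exact_mod_cast (by omega : 0 < j - 1)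
        have g2 := hκI (((j - 1 : ℕ) : ℝ) / M) u j8.le (by linarith) hu (by linarith)
          (by rw [abs_sub_comm, abs_of_nonneg (by linarith)]; linarith)
        have hjr : j - 1 < M * (U + 2) + 1 := by
          have : j ≤ M * (U + 2) := by nlinarith
          omega
        have g1 := ((hs (j - 1) (mem_range.2 hjr)).2).1 j8 (by
          rw [← hVX, ← hκ]
          linarith)
        rw [← hVX, ← hκ] at g1
        refine (hrp _ _ ?_).trans (g1.trans ?_)
        · linarith
        · unfold NM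
          apply card_filter_imp
          intro n _ hn
          have h1 := (abs_le.1 hn).2
          have h2 := mul_le_mul_of_nonneg_right j6 (show 0 ≤ (k : ℝ) * δ by positivity)
          have h3 := hwin (κ / M) le_rfl
          have h4 : 1 / (M : ℝ) * (k * δ) = κ / M * Real.log X := by
            rw [hkL]
            ring
          linarith

/-- **The profile of the numbers of hits.** -/
theorem profile (K ε : ℝ) (hK : 0 < K) (hε : 0 < ε) (hε1 : ε ≤ 1) : ∃ m : ℕ, ∀ (δ : ℝ) (S : Finset β) (V : Finset α)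
    (R : α → β → Prop), 0 < δ → Reg (1 / (m + 1 : ℝ)) δ S V R → m ≤ V.card → ∀ k : ℕ, ε ≤ kap δ V.card k →
    kap δ V.card k ≤ K →
    (((seqs S k).filter (fun s => ¬ Prof ε δ R V s)).card : ℝ) ≤ ε * (S.card : ℝ) ^ k := by
  set U : ℕ := ⌈2 / ε⌉₊ + 3 with hU
  have hU' : 2 / ε + 2 ≤ U := by
    rw [hU]
    push_cast
    linarith [Nat.le_ceil (2 / ε)]
  set ω : ℝ := ε / (4 * K) with hω
  have hω0 : 0 < ω := by positivity
  have hKω : K * ω ≤ ε / 4 := by
    rw [hω]
    apply le_of_eq
    field_simp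
  obtain ⟨h, hh, hI⟩ := I_unif ((U : ℝ) + 2) ω hω0
  set M : ℕ := ⌈2 / h⌉₊ + 1 with hM
  have hM0 : 0 < M := by omega
  have hMr : (0 : ℝ) < M := by exact_mod_cast hM0
  have hMh : 2 / (M : ℝ) ≤ h := by
    rw [div_le_iff₀ hMr]
    have h1 : 2 / h ≤ M := by
      rw [hM]
      push_cast
      linarith [Nat.le_ceil (2 / h)]
    rw [div_le_iff₀ hh] at h1
    linarith
  set N : ℕ := M * (U + 2) + 1 with hN
  have hNr : (0 : ℝ) < N := by
    rw [hN]
    push_cast
    positivity
  have hMN : (M : ℝ) ≤ N := by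
    have : M ≤ N := by
      rw [hN]
      nlinarith
    exact_mod_cast this
  have hN1 : (1 : ℝ) ≤ N := by
    have : 1 ≤ N := by omega
    exact_mod_cast this
  set ε₂ : ℝ := ε / (4 * N) with hε₂
  have hε₂0 : 0 < ε₂ := by positivity
  have hε₂4 : ε₂ ≤ ε / 4 := by
    rw [hε₂]
    apply div_le_div_of_nonneg_left hε.le (by norm_num)
    linarith
  have hε₂M : ε₂ * M ≤ ε := by
    rw [hε₂, div_mul_eq_mul_div, div_le_iff₀ (by positivity)]
    nlinarith
  have hε₂N : N * (3 * ε₂) ≤ ε := by
    rw [hε₂]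
    have : N * (3 * (ε / (4 * N))) = 3 / 4 * ε := by
      field_simp
    rw [this]
    linarith
  have hev : ∀ᶠ m : ℕ in atTop, ∀ j ∈ range N, ∀ (δ : ℝ) (S : Finset β) (V : Finset α) (R : α → β → Prop),
    0 < δ → Reg (1 / (m + 1 : ℝ)) δ S V R → m ≤ V.card → ∀ k : ℕ, kap δ V.card k ≤ K →
    (((seqs S k).filter (fun s => ¬ GP ε₂ δ ((j : ℝ) / M) R V s)).card : ℝ) ≤ 3 * ε₂ * (S.card : ℝ) ^ k := by
    rw [eventually_all_finset]
    intro j _
    exact grid_pt ((j : ℝ) / M) K ε₂ (by positivity) hK hε₂0 (by linarith)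
  obtain ⟨m, hm, hm3⟩ := (hev.and (eventually_ge_atTop 3)).exists
  refine ⟨m, fun δ S V R hδ hR hV k hk' hk => ?_⟩
  have h1 := card_all S k (range N) (fun j s => GP ε₂ δ ((j : ℝ) / M) R V s) (3 * ε₂ * (S.card : ℝ) ^ k)
    (fun j hj => hm j hj δ S V R hδ hR hV k hk)
  rw [card_range] at h1
  have hSk : (0 : ℝ) ≤ (S.card : ℝ) ^ k := pow_nonneg (Nat.cast_nonneg _) _
  have h2 : (N : ℝ) * (3 * ε₂ * (S.card : ℝ) ^ k) ≤ ε * (S.card : ℝ) ^ k := by
    rw [← mul_assoc]
    exact mul_le_mul_of_nonneg_right hε₂N hSk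
  refine le_trans ?_ (h1.trans h2)
  apply Nat.cast_le.2
  apply card_le_card
  intro s hs
  rw [mem_filter] at hs ⊢
  refine ⟨hs.1, fun h' => hs.2 ?_⟩
  exact prof_of_grid K ε ω ε₂ M U hK hε hε1 hM0 hU' hKω hε₂0 hε₂4 hε₂M
    (fun x y a1 a2 a3 a4 a5 => hI x y a1 a2 a3 a4 (a5.trans hMh)) δ V R hδ (hm3.trans hV) k hk hk' s h'

end Pool.Agent.Q145.LD
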