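import Pool.Agent.Q145.LD.WLaw

set_option autoImplicit false
set_option maxHeartbeats 4000000

/-! # Tails: upper bounds -/

namespace Pool.Agent.Q145.LD

open Finset Filter
open Pool.Agent.Q145.RA (seqs card_seqs Reg card_filter_inst kap surv)

open scoped Classical

variable {α β : Type}

theorem Reg.mono {η η' δ : ℝ} {S : Finset β} {V : Finset α} {R : α → β → Prop} (hδ : 0 ≤ δ) (h : η ≤ η')
    (hR : Reg η δ S V R) : Reg η' δ S V R := by
  have hS : (0 : ℝ) ≤ S.card := Nat.cast_nonneg _
  have hl : 0 ≤ δ / Real.log V.card := div_nonneg hδ (Real.log_natCast_nonneg _)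
  refine ⟨fun n hn => ?_, fun H hH hc => ?_, fun H hH hc => ?_, fun H hH hc => ?_⟩
  · refine le_trans ?_ (hR.lo n hn)
    apply mul_le_mul_of_nonneg_right _ hS
    nlinarith
  · refine (hR.hi H hH hc).trans ?_
    apply mul_le_mul_of_nonneg_right _ hS
    nlinarith
  · refine (hR.two H hH hc).trans ?_
    apply mul_le_mul_of_nonneg_right _ hS
    nlinarith
  · refine (hR.three H hH hc).trans ?_
    apply mul_le_mul_of_nonneg_right _ hS
    exact mul_le_mul_of_nonneg_right h hl

/-- the points with at least `u` times the expected number of hits -/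
noncomputable def NP (R : α → β → Prop) (δ : ℝ) (V : Finset α) {k : ℕ} (s : Fin k → β) (u : ℝ) : ℕ :=
  (V.filter (fun n => u * (k * δ) ≤ hit R s n)).card

/-- the points with at most `u` times the expected number of hits -/
noncomputable def NM (R : α → β → Prop) (δ : ℝ) (V : Finset α) {k : ℕ} (s : Fin k → β) (u : ℝ) : ℕ :=
  (V.filter (fun n => (hit R s n : ℝ) ≤ u * (k * δ))).card

/-- the number of the points in the tail is at most the weight -/
theorem tail_Z (R : α → β → Prop) (δ : ℝ) (V : Finset α) {k : ℕ} (s : Fin k → β) (u : ℝ) (hu : 0 < u) :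
    (1 ≤ u → (NP R δ V s u : ℝ) * Real.exp (u * (k * δ) * Real.log u) ≤ Z u V (hit R s)) ∧
    (u ≤ 1 → (NM R δ V s u : ℝ) * Real.exp (u * (k * δ) * Real.log u) ≤ Z u V (hit R s)) := by
  have hp : ∀ n, (u : ℝ) ^ hit R s n = Real.exp (hit R s n * Real.log u) := fun n => by
    rw [← Real.log_pow, Real.exp_log (pow_pos hu _)]
  constructor
  · intro h1
    unfold NP Z
    rw [← nsmul_eq_mul, ← sum_const]
    refine (sum_le_sum (fun n hn => ?_)).trans (sum_le_sum_of_subset_of_nonneg (filter_subset _ _)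
      (fun _ _ _ => (pow_pos hu _).le))
    rw [hp]
    exact Real.exp_le_exp.2 (mul_le_mul_of_nonneg_right (mem_filter.1 hn).2 (Real.log_nonneg h1))
  · intro h1
    unfold NM Z
    rw [← nsmul_eq_mul, ← sum_const]
    refine (sum_le_sum (fun n hn => ?_)).trans (sum_le_sum_of_subset_of_nonneg (filter_subset _ _)
      (fun _ _ _ => (pow_pos hu _).le))
    rw [hp]
    exact Real.exp_le_exp.2 (mul_le_mul_of_nonpos_right (mem_filter.1 hn).2 (Real.log_nonpos hu.le h1))

/-- the upper bound for the tails -/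
def Tl (ε δ u : ℝ) (R : α → β → Prop) (V : Finset α) {k : ℕ} (s : Fin k → β) : Prop :=
  (1 ≤ u → (NP R δ V s u : ℝ) ≤ (V.card : ℝ) ^ (1 - kap δ V.card k * I u + ε)) ∧
  (u ≤ 1 → (NM R δ V s u : ℝ) ≤ (V.card : ℝ) ^ (1 - kap δ V.card k * I u + ε))

theorem kap_mul (δ : ℝ) (X k : ℕ) (h : 3 ≤ X) : (k : ℝ) * δ = kap δ X k * Real.log X := by
  have : 0 < Real.log X := Real.log_pos (by exact_mod_cast (by omega : 1 < X))
  unfold kap
  field_simp

theorem kap_nonneg (δ : ℝ) (X k : ℕ) (h : 0 ≤ δ) : 0 ≤ kap δ X k := by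
  unfold kap
  exact div_nonneg (by positivity) (Real.log_natCast_nonneg _)

theorem I_zero : I 0 = 1 := by
  unfold I
  simp

theorem I_one : I 1 = 0 := by
  unfold I
  simp

/-- tails for a fixed parameter -/
theorem tails (u K ε : ℝ) (hu : 0 ≤ u) (hK : 0 < K) (hε : 0 < ε) : ∃ (η : ℝ) (X₀ : ℕ),
    0 < η ∧ ∀ (δ : ℝ) (S : Finset β) (V : Finset α) (R : α → β → Prop), 0 < δ → Reg η δ S V R →
    X₀ ≤ V.card → ∀ k : ℕ, kap δ V.card k ≤ K →
    (((seqs S k).filter (fun s => ¬ Tl ε δ u R V s)).card : ℝ) ≤ ε * (S.card : ℝ) ^ k := by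
  have hl' : Tendsto (fun Y : ℕ => Real.log Y) atTop atTop :=
    Real.tendsto_log_atTop.comp tendsto_natCast_atTop_atTop
  obtain ⟨X₀, hX₀⟩ := eventually_atTop.1 ((hl'.eventually (ev_exp (ε / 2) ε (by positivity) hε)).and
    (eventually_ge_atTop 3))
  set η : ℝ := ε / (2 * K * (|u - 1| + 1)) with hη
  have hη0 : 0 < η := by positivity
  have hηK : |u - 1| * η * K ≤ ε / 2 := by
    have e1 : (|u - 1| + 1) * η * K = ε / 2 := by
      rw [hη]
      field_simp
    have e2 : 0 ≤ η * K := by positivity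
    nlinarith
  refine ⟨η, X₀, hη0, fun δ S V R hδ hR hX k hk => ?_⟩
  obtain ⟨g1, g3⟩ := hX₀ V.card hX
  set X : ℕ := V.card with hVX
  have hXr : (3 : ℝ) ≤ X := by exact_mod_cast g3
  have hX0 : (0 : ℝ) < X := by linarith
  set A := Real.log (X : ℝ) with hA
  have hA0 : 0 < A := Real.log_pos (by linarith)
  have hXA : (X : ℝ) = Real.exp A := (Real.exp_log hX0).symm
  have hkL := kap_mul δ X k g3
  rw [← hA] at hkL
  have hκ0 := kap_nonneg δ X k hδ.le
  set κ := kap δ X k with hκ
  have hpow : ∀ z : ℝ, (X : ℝ) ^ z = Real.exp (z * A) := fun z => by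
    rw [Real.rpow_def_of_pos hX0, mul_comm]
  have hSk : (0 : ℝ) ≤ (S.card : ℝ) ^ k := pow_nonneg (Nat.cast_nonneg _) _
  rcases eq_or_lt_of_le hu with h0 | h0
  · -- the points without hits
    have h1 := Pool.Agent.Q145.RA.up η δ S V R hR k (Real.exp ((1 - κ + ε) * A)) (Real.exp_pos _)
    rw [← hVX] at h1
    have h2 : (seqs S k).filter (fun s => ¬ Tl ε δ u R V s) ⊆
        (seqs S k).filter (fun s => Real.exp ((1 - κ + ε) * A) ≤ surv R V s) := by
      intro s hs
      rw [mem_filter] at hs ⊢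
      refine ⟨hs.1, ?_⟩
      by_contra h3
      apply hs.2
      rw [not_le] at h3
      unfold Tl
      rw [← h0]
      refine ⟨fun h => absurd h (by norm_num), fun _ => ?_⟩
      rw [← hVX, ← hκ, I_zero, mul_one, hpow]
      refine le_trans (le_of_eq ?_) h3.le
      unfold NM surv
      congr 1
      apply card_bij (fun a _ => a) _ (fun _ _ _ _ h => h)
      · intro b hb
        refine ⟨b, ?_, rfl⟩
        rw [mem_filter] at hb ⊢
        refine ⟨hb.1, ?_⟩
        have : hit R s b = 0 := by
          unfold hit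
          apply sum_eq_zero
          intro i _
          rw [if_neg (hb.2 i)]
        rw [this]
        simp
      · intro b hb
        rw [mem_filter] at hb ⊢
        refine ⟨hb.1, fun i hi => ?_⟩
        have h4 : hit R s b = 0 := by
          have := hb.2
          rw [zero_mul] at this
          exact_mod_cast le_antisymm this (Nat.cast_nonneg _)
        unfold hit at h4
        have h5 := (sum_eq_zero_iff.1 h4) i (mem_univ _)
        rw [if_pos hi] at h5
        exact one_ne_zero h5
    refine (Nat.cast_le.2 (card_le_card h2)).trans ((le_of_eq (congrArg Nat.cast (card_filter_inst _ _ _ _))).trans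
      (h1.trans ?_))
    rw [mul_comm]
    apply mul_le_mul_of_nonneg_right _ hSk
    rw [hXA, ← Real.exp_add, ← Real.exp_sub]
    refine le_trans (Real.exp_le_exp.2 ?_) g1
    have e1 : (1 - η) * δ * k = (1 - η) * (κ * A) := by
      rw [← hkL]
      ring
    rw [e1]
    have e2 : η * κ ≤ ε / 2 := by
      rw [← h0, zero_sub, abs_neg, abs_one, one_mul] at hηK
      exact (mul_le_mul_of_nonneg_left hk hη0.le).trans hηK
    have e3 : η * κ * A ≤ ε / 2 * A := mul_le_mul_of_nonneg_right e2 hA0.le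
    linarith
  · have h1 := fst η δ u h0 R S V V hR (Subset.refl _) k (Real.exp ((1 - κ * I u + ε) * A) *
      Real.exp (u * (k * δ) * Real.log u)) (by positivity)
    rw [← hVX] at h1
    have h2 : (seqs S k).filter (fun s => ¬ Tl ε δ u R V s) ⊆
        (seqs S k).filter (fun s => Real.exp ((1 - κ * I u + ε) * A) * Real.exp (u * (k * δ) * Real.log u) ≤
          Z u V (hit R s)) := by
      intro s hs
      rw [mem_filter] at hs ⊢
      refine ⟨hs.1, ?_⟩
      by_contra h3
      apply hs.2
      rw [not_le] at h3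
      obtain ⟨t1, t2⟩ := tail_Z R δ V s u h0
      refine ⟨fun h => ?_, fun h => ?_⟩
      · rw [← hVX, ← hκ, hpow]
        exact le_of_mul_le_mul_right ((t1 h).trans h3.le) (Real.exp_pos _)
      · rw [← hVX, ← hκ, hpow]
        exact le_of_mul_le_mul_right ((t2 h).trans h3.le) (Real.exp_pos _)
    refine (Nat.cast_le.2 (card_le_card h2)).trans ((le_of_eq (congrArg Nat.cast (card_filter_inst _ _ _ _))).trans
      (h1.trans ?_))
    rw [mul_comm]
    apply mul_le_mul_of_nonneg_right _ hSk
    rw [hXA, ← Real.exp_add, ← Real.exp_add, ← Real.exp_sub]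
    refine le_trans (Real.exp_le_exp.2 ?_) g1
    have e1 : (k : ℝ) * (δ * (u - 1 + |u - 1| * η)) = (u - 1 + |u - 1| * η) * (κ * A) := by
      rw [← hkL]
      ring
    rw [e1, hkL]
    have e2 : |u - 1| * η * κ ≤ ε / 2 := (mul_le_mul_of_nonneg_left hk (by positivity)).trans hηK
    have e3 : |u - 1| * η * κ * A ≤ ε / 2 * A := mul_le_mul_of_nonneg_right e2 hA0.le
    unfold I
    nlinarith

end Pool.Agent.Q145.LD
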