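import Pool.Agent.Q145.LD.Iter

set_option autoImplicit false
set_option maxHeartbeats 4000000

/-! # Windows after all steps -/

namespace Pool.Agent.Q145.LD

open Finset Filter
open Pool.Agent.Q145.RA (seqs card_seqs Reg card_filter_inst kap)

open scoped Classical

variable {α β : Type}

theorem I_nonneg (u : ℝ) (hu : 0 ≤ u) : 0 ≤ I u := by
  unfold I
  rcases eq_or_lt_of_le hu with h | h
  · rw [← h]
    simp
  · have h1 := Real.one_sub_inv_le_log_of_pos h
    have h2 : u * (1 - u⁻¹) ≤ u * Real.log u := mul_le_mul_of_nonneg_left h1 hu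
    have h3 : u * (1 - u⁻¹) = u - 1 := by
      field_simp
    linarith

theorem card_filter_imp {γ : Type} (s : Finset γ) (p q : γ → Prop) (h : ∀ a ∈ s, p a → q a) :
    ((s.filter p).card : ℝ) ≤ (s.filter q).card := by
  apply Nat.cast_le.2
  apply card_le_card
  intro a ha
  rw [mem_filter] at ha ⊢
  exact ⟨ha.1, h a ha.1 ha.2⟩

/-- many points in the window -/
theorem window_law (lam K ε : ℝ) (hl : 0 < lam) (hK : 0 < K) (hε : 0 < ε) (hε1 : ε ≤ 1) : ∃ (η : ℝ) (X₀ : ℕ),
    0 < η ∧ η ≤ 1 / 2 ∧ ∀ (δ : ℝ) (S : Finset β) (V : Finset α) (R : α → β → Prop), 0 < δ → Reg η δ S V R →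
    X₀ ≤ V.card → ∀ k : ℕ, kap δ V.card k ≤ K → kap δ V.card k * I lam ≤ 1 - ε →
    (((seqs S k).filter (fun s => ¬ ((V.card : ℝ) ^ (1 - kap δ V.card k * I lam - ε) ≤
      ((V.filter (fun n => |(hit R s n : ℝ) - lam * (k * δ)| ≤ ε * Real.log V.card)).card : ℝ)))).card : ℝ) ≤
      ε * (S.card : ℝ) ^ k := by
  obtain ⟨a₀, ha₀, hb⟩ := block (α := α) (β := β) lam (ε / 2) hl (by positivity)
  set T : ℕ := ⌈K / a₀⌉₊ + 1 with hT
  have hT0 : (0 : ℝ) < T := by
    rw [hT]
    push_cast
    positivity
  have hTK : K / a₀ ≤ T := by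
    rw [hT]
    push_cast
    linarith [Nat.le_ceil (K / a₀)]
  set Λ : ℝ := |Real.log lam| + 1 with hΛ
  have hΛ1 : 1 ≤ Λ := by
    have := abs_nonneg (Real.log lam)
    linarith
  set ε₁ : ℝ := ε / (4 * T * Λ) with hε₁d
  have hε₁ : 0 < ε₁ := by positivity
  have hε₁T : T * (ε₁ * Λ) = ε / 4 := by
    rw [hε₁d]
    field_simp
  have hε₁T' : T * ε₁ ≤ ε / 4 := by
    rw [← hε₁T]
    apply mul_le_mul_of_nonneg_left _ hT0.le
    nlinarith
  obtain ⟨η₀, A₀, hη₀, hη₀1, hblock⟩ := hb ε₁ (ε / T) hε₁ (by positivity)
  have hl' : Tendsto (fun Y : ℕ => Real.log Y) atTop atTop :=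
    Real.tendsto_log_atTop.comp tendsto_natCast_atTop_atTop
  obtain ⟨X₀, hX₀⟩ := eventually_atTop.1 ((hl'.eventually_ge_atTop (max A₀ 1)).and
    ((hl'.eventually_ge_atTop (4 * (T + 2 * lam * T) / (3 * ε))).and (eventually_ge_atTop 3)))
  refine ⟨min η₀ (1 / 2), X₀, lt_min hη₀ (by norm_num), min_le_right _ _, fun δ S V R hδ hR hX k hk hkI => ?_⟩
  obtain ⟨g1, g2, g3⟩ := hX₀ V.card hX
  set X : ℕ := V.card with hVX
  have hXr : (3 : ℝ) ≤ X := by exact_mod_cast g3
  have hX0 : (0 : ℝ) < X := by linarith
  set A := Real.log (X : ℝ) with hA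
  have hA1 : 1 ≤ A := (le_max_right _ _).trans g1
  have hA0 : 0 < A := by linarith
  have hAA : A₀ ≤ A := (le_max_left _ _).trans g1
  have hXA : (X : ℝ) = Real.exp A := (Real.exp_log hX0).symm
  set κ := kap δ X k with hκ
  have hκ0 : 0 ≤ κ := by
    rw [hκ]
    unfold kap
    positivity
  have hkL : (k : ℝ) * δ = κ * A := by
    rw [hκ]
    unfold kap
    rw [← hA]
    field_simp
  have hI := I_nonneg lam hl.le
  have hpow : ∀ z : ℝ, (X : ℝ) ^ z = Real.exp (z * A) := fun z => by
    rw [Real.rpow_def_of_pos hX0, mul_comm]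
  rcases S.eq_empty_or_nonempty with hS | hS
  · -- no elements
    rcases Nat.eq_zero_or_pos k with hk0 | hk0
    · have h1 : (seqs S k).filter (fun s => ¬ ((X : ℝ) ^ (1 - κ * I lam - ε) ≤
        ((V.filter (fun n => |(hit R s n : ℝ) - lam * (k * δ)| ≤ ε * A)).card : ℝ))) = ∅ := by
        apply filter_eq_empty_iff.2
        intro s _
        rw [not_not]
        have h2 : V.filter (fun n => |(hit R s n : ℝ) - lam * (k * δ)| ≤ ε * A) = V := by
          apply filter_true_of_mem
          intro n _
          have h3 : hit R s n = 0 := Nat.le_zero.1 ((hit_le R s n).trans (by omega))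
          rw [h3, hk0]
          simp
          positivity
        rw [h2]
        calc (X : ℝ) ^ (1 - κ * I lam - ε) ≤ (X : ℝ) ^ (1 : ℝ) :=
              Real.rpow_le_rpow_of_exponent_le (by linarith) (by nlinarith [mul_nonneg hκ0 hI])
          _ = V.card := by rw [Real.rpow_one]
      rw [h1, card_empty, Nat.cast_zero]
      exact mul_nonneg hε.le (pow_nonneg (Nat.cast_nonneg _) _)
    · refine (card_not_le S k _).trans ?_
      rw [hS, card_empty]
      have : ((0 : ℕ) : ℝ) ^ k = 0 := by
        rw [Nat.cast_zero]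
        exact zero_pow (by omega)
      rw [this, mul_zero]
  · have hV : V.Nonempty := by
      rw [← card_pos]
      omega
    have hSr : (0 : ℝ) < S.card := by exact_mod_cast card_pos.2 hS
    have hη : min η₀ (1 / 2) ≤ 1 / 2 := min_le_right _ _
    have hδ2 : δ ≤ 2 := by
      obtain ⟨n, hn⟩ := hV
      have h1 := hR.lo n hn
      have h2 : ((S.filter (fun a => R n a)).card : ℝ) ≤ S.card := by
        exact_mod_cast card_le_card (filter_subset _ _)
      have h3 : (1 - min η₀ (1 / 2)) * δ * S.card ≤ 1 * S.card := by linarith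
      have h4 := le_of_mul_le_mul_right h3 hSr
      nlinarith
    have hR' : Reg η₀ δ S V R := by
      have hm : min η₀ (1 / 2) ≤ η₀ := min_le_left _ _
      refine ⟨fun n hn => ?_, fun H hH hc => ?_, fun H hH hc => ?_, fun H hH hc => ?_⟩
      · refine le_trans ?_ (hR.lo n hn)
        apply mul_le_mul_of_nonneg_right _ hSr.le
        nlinarith
      · refine (hR.hi H hH hc).trans ?_
        apply mul_le_mul_of_nonneg_right _ hSr.le
        nlinarith
      · refine (hR.two H hH hc).trans ?_
        apply mul_le_mul_of_nonneg_right _ hSr.le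
        nlinarith
      · refine (hR.three H hH hc).trans ?_
        apply mul_le_mul_of_nonneg_right _ hSr.le
        apply mul_le_mul_of_nonneg_right hm
        positivity
    set k' : ℕ := k / T with hk'
    set r : ℕ := k % T with hr
    have hTpos : 0 < T := by omega
    have hkr : k = k' * T + r := by
      rw [hk', hr]
      exact (Nat.div_add_mod' k T).symm
    have hrT : r < T := Nat.mod_lt _ hTpos
    have hk'T : (k' : ℝ) * T ≤ k := by
      exact_mod_cast Nat.div_mul_le_self k T
    have hk'a : (k' : ℝ) * δ ≤ a₀ * A := by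
      have h1 : (k' : ℝ) * T * δ ≤ k * δ := mul_le_mul_of_nonneg_right hk'T hδ.le
      have h2 : (k : ℝ) * δ ≤ K * A := by
        rw [hkL]
        exact mul_le_mul_of_nonneg_right hk hA0.le
      have h3 : K ≤ T * a₀ := by
        rwa [div_le_iff₀ ha₀] at hTK
      have h4 : K * A ≤ T * a₀ * A := mul_le_mul_of_nonneg_right h3 hA0.le
      have h5 : T * ((k' : ℝ) * δ) ≤ T * (a₀ * A) := by linarith
      exact le_of_mul_le_mul_left h5 hT0
    set L : ℝ := k' * δ * I lam + ε₁ * Λ * A with hL
    have hL0 : 0 ≤ L := by positivity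
    have hTL : T * L ≤ κ * I lam * A + ε / 4 * A := by
      have h1 : T * L = ((k' : ℝ) * T * δ) * I lam + (T * (ε₁ * Λ)) * A := by
        rw [hL]
        ring
      rw [h1, hε₁T]
      have h2 : (k' : ℝ) * T * δ ≤ κ * A := by
        rw [← hkL]
        exact mul_le_mul_of_nonneg_right hk'T hδ.le
      have h3 := mul_le_mul_of_nonneg_right h2 hI
      linarith
    have h1 := iter δ A L ε₁ (ε / T) lam (ε / 2) hL0 S V R k' (fun W hW hWc => by
      have := hblock δ A S V W R hδ hAA hR' hW hWc (by
        rw [← hXA]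
        exact_mod_cast card_le_card hW) k' hk'a
      refine (le_of_eq (congrArg Nat.cast ?_)).trans this
      unfold Bad
      exact card_filter_inst _ _ _ _) (by positivity) T V (Subset.refl _) (by
        rw [← hVX, hXA, ← Real.exp_add]
        apply Real.exp_le_exp.2
        nlinarith)
    have hcomb : (((seqs S (k' * T + r)).filter (fun s => ¬ ((X : ℝ) ^ (1 - κ * I lam - ε) ≤
      ((V.filter (fun n => |(hit R s n : ℝ) - lam * (k * δ)| ≤ ε * A)).card : ℝ)))).card : ℝ) ≤
      ε * (S.card : ℝ) ^ (k' * T + r) := by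
      have hcard := card_append S (k' * T) r (fun s => ¬ ((X : ℝ) ^ (1 - κ * I lam - ε) ≤
        ((V.filter (fun n => |(hit R s n : ℝ) - lam * (k * δ)| ≤ ε * A)).card : ℝ)))
      have hinst := card_filter_inst (seqs S (k' * T + r)) (fun s => ¬ ((X : ℝ) ^ (1 - κ * I lam - ε) ≤
        ((V.filter (fun n => |(hit R s n : ℝ) - lam * (k * δ)| ≤ ε * A)).card : ℝ))) (fun _ => instDecidableNot) (fun _ => Classical.propDecidable _)
      rw [hinst, hcard, Nat.cast_sum]
      rw [← sum_filter_add_sum_filter_not (seqs S (k' * T)) (fun s => Bad R δ A lam (T * ε₁) (T * L) V s)]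
      have p1 : ∑ s ∈ (seqs S (k' * T)).filter (fun s => Bad R δ A lam (T * ε₁) (T * L) V s),
          (((seqs S r).filter (fun t => ¬ ((X : ℝ) ^ (1 - κ * I lam - ε) ≤
          ((V.filter (fun n => |(hit R (Fin.append s t) n : ℝ) - lam * (k * δ)| ≤ ε * A)).card : ℝ)))).card : ℝ) ≤
          T * (ε / T) * (S.card : ℝ) ^ (k' * T) * (S.card : ℝ) ^ r := by
        calc _ ≤ ∑ s ∈ (seqs S (k' * T)).filter (fun s => Bad R δ A lam (T * ε₁) (T * L) V s), (S.card : ℝ) ^ r :=
              sum_le_sum fun s _ => card_not_le S r _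
          _ ≤ _ := by
              rw [sum_const, nsmul_eq_mul]
              exact mul_le_mul_of_nonneg_right h1 (pow_nonneg (Nat.cast_nonneg _) _)
      have p2 : ∑ s ∈ (seqs S (k' * T)).filter (fun s => ¬ Bad R δ A lam (T * ε₁) (T * L) V s),
          (((seqs S r).filter (fun t => ¬ ((X : ℝ) ^ (1 - κ * I lam - ε) ≤
          ((V.filter (fun n => |(hit R (Fin.append s t) n : ℝ) - lam * (k * δ)| ≤ ε * A)).card : ℝ)))).card : ℝ) = 0 := by
        apply sum_eq_zero
        intro s hs
        have hs2 := (mem_filter.1 hs).2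
        unfold Bad at hs2
        rw [not_not] at hs2
        rw [Nat.cast_eq_zero, card_eq_zero, filter_eq_empty_iff]
        intro t _
        rw [not_not]
        calc (X : ℝ) ^ (1 - κ * I lam - ε) = Real.exp ((1 - κ * I lam - ε) * A) := hpow _
          _ ≤ Real.exp (A + -(T * L)) := by
              apply Real.exp_le_exp.2
              nlinarith
          _ = V.card * Real.exp (-(T * L)) := by
              rw [Real.exp_add, ← hXA]
          _ ≤ _ := hs2
          _ ≤ _ := by
              apply card_filter_imp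
              intro n _ hn
              rw [hit_append]
              push_cast at hn ⊢
              have e1 : (hit R s n : ℝ) + hit R t n - lam * (k * δ) =
                  ((hit R s n : ℝ) - lam * (k' * T * δ)) + (hit R t n - lam * (r * δ)) := by
                have : (k : ℝ) = k' * T + r := by exact_mod_cast hkr
                rw [this]
                ring
              rw [e1]
              have e2 : |(hit R t n : ℝ) - lam * (r * δ)| ≤ T + 2 * lam * T := by
                have f1 : (hit R t n : ℝ) ≤ T := by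
                  exact_mod_cast (hit_le R t n).trans hrT.le
                have f2 : (0 : ℝ) ≤ hit R t n := Nat.cast_nonneg _
                have f3 : lam * (r * δ) ≤ 2 * lam * T := by
                  have f4 : (r : ℝ) ≤ T := by exact_mod_cast hrT.le
                  have f5 : (r : ℝ) * δ ≤ T * 2 := mul_le_mul f4 hδ2 hδ.le hT0.le
                  nlinarith
                have f6 : 0 ≤ lam * (r * δ) := by positivity
                rw [abs_le]
                constructor
                · nlinarith
                · nlinarith [mul_pos hl hT0]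
              have e3 : T + 2 * lam * T ≤ 3 / 4 * ε * A := by
                rw [div_le_iff₀ (by positivity)] at g2
                nlinarith
              refine (abs_add_le _ _).trans ?_
              have e4 : T * ε₁ * A ≤ ε / 4 * A := mul_le_mul_of_nonneg_right hε₁T' hA0.le
              nlinarith
      have e5 : T * (ε / T) * (S.card : ℝ) ^ (k' * T) * (S.card : ℝ) ^ r = ε * (S.card : ℝ) ^ (k' * T + r) := by
        rw [pow_add, mul_div_cancel₀ ε hT0.ne', mul_assoc]
      rw [← e5]
      refine le_trans (add_le_add ?_ ?_) (le_of_eq (add_zero _))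
      · refine le_trans (le_of_eq ?_) p1
        apply sum_congr rfl
        intro s _
        rw [card_filter_inst]
      · refine le_trans (le_of_eq ?_) (le_of_eq p2)
        apply sum_congr rfl
        intro s _
        rw [card_filter_inst]
    have hgen : ∀ N : ℕ, N = k' * T + r → (((seqs S N).filter (fun s => ¬ ((X : ℝ) ^ (1 - κ * I lam - ε) ≤
      ((V.filter (fun n => |(hit R s n : ℝ) - lam * (k * δ)| ≤ ε * A)).card : ℝ)))).card : ℝ) ≤
      ε * (S.card : ℝ) ^ N := by
      rintro N rfl
      exact hcomb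
    exact hgen k hkr

end Pool.Agent.Q145.LD
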