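import Pool.Agent.Q145.LD.Pot

set_option autoImplicit false
set_option maxHeartbeats 4000000

/-! # From weights to windows -/

namespace Pool.Agent.Q145.LD

open Finset Filter

open scoped Classical

variable {α β : Type}

/-- the rate function -/
noncomputable def I (u : ℝ) : ℝ := 1 - u + u * Real.log u

theorem exp_sub_le (τ : ℝ) (h0 : 0 < τ) (h1 : τ ≤ 1) : Real.exp τ - 1 - τ ≤ τ ^ 2 := by
  have := Real.abs_exp_sub_one_sub_id_le (x := τ) (by rw [abs_of_pos h0]; exact h1)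
  exact (le_abs_self _).trans this

theorem exp_neg_sub_le (τ : ℝ) (h0 : 0 < τ) (h1 : τ ≤ 1) : Real.exp (-τ) - 1 + τ ≤ τ ^ 2 := by
  have := Real.abs_exp_sub_one_sub_id_le (x := -τ) (by rw [abs_neg, abs_of_pos h0]; exact h1)
  have h2 := (le_abs_self _).trans this
  rw [neg_sq] at h2
  linarith

theorem window_count (lam τ ε₁ ε₃ A μ : ℝ) (hl : 0 < lam) (hτ : 0 < τ) (hτ1 : τ ≤ 1) (hlτ : lam * τ ≤ ε₁ / 2)
    (hε₁ : 0 < ε₁) (hε₃ : 0 < ε₃) (hε₃' : ε₃ ≤ τ * ε₁ / 8) (hμ0 : 0 ≤ μ) (hμ : μ ≤ A) (hA : 0 ≤ A)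
    (hA1 : Real.exp (-(τ * ε₁ / 4 * A)) ≤ 1 / 4) (hA2 : Real.exp (-(ε₁ / 2 * A)) ≤ 1 / 2)
    (W : Finset α) (f : α → ℕ)
    (h1 : W.card * Real.exp ((lam - 1) * μ - ε₃ * A) ≤ Z lam W f)
    (h2 : Z (lam * Real.exp τ) W f ≤ W.card * Real.exp ((lam * Real.exp τ - 1) * μ + ε₃ * A))
    (h3 : Z (lam * Real.exp (-τ)) W f ≤ W.card * Real.exp ((lam * Real.exp (-τ) - 1) * μ + ε₃ * A)) :
    W.card * Real.exp (-(μ * I lam + ε₁ * (|Real.log lam| + 1) * A)) ≤
      ((W.filter (fun n => |(f n : ℝ) - lam * μ| ≤ ε₁ * A)).card : ℝ) := by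
  have hW0 : (0 : ℝ) ≤ W.card := Nat.cast_nonneg _
  set m : ℝ := W.card * Real.exp ((lam - 1) * μ - ε₃ * A) with hm
  have hm0 : 0 ≤ m := by positivity
  -- the points outside the window
  have k1 : ∑ n ∈ W.filter (fun n => ¬ |(f n : ℝ) - lam * μ| ≤ ε₁ * A), lam ^ f n ≤
      Real.exp (-(τ * (lam * μ + ε₁ * A))) * Z (lam * Real.exp τ) W f +
      Real.exp (τ * (lam * μ - ε₁ * A)) * Z (lam * Real.exp (-τ)) W f := by
    unfold Z
    rw [mul_sum, mul_sum, ← sum_add_distrib]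
    have k2 : ∀ n ∈ W.filter (fun n => ¬ |(f n : ℝ) - lam * μ| ≤ ε₁ * A), lam ^ f n ≤
        Real.exp (-(τ * (lam * μ + ε₁ * A))) * (lam * Real.exp τ) ^ f n +
        Real.exp (τ * (lam * μ - ε₁ * A)) * (lam * Real.exp (-τ)) ^ f n := by
      intro n hn
      have h4 := (mem_filter.1 hn).2
      rw [abs_le, not_and_or, not_le, not_le] at h4
      have e1 : (0 : ℝ) < lam ^ f n := pow_pos hl _
      have e2 : Real.exp (-(τ * (lam * μ + ε₁ * A))) * (lam * Real.exp τ) ^ f n =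
          lam ^ f n * Real.exp (τ * ((f n : ℝ) - lam * μ - ε₁ * A)) := by
        rw [mul_pow, ← Real.exp_nat_mul, mul_left_comm, ← Real.exp_add]
        congr 2
        ring
      have e3 : Real.exp (τ * (lam * μ - ε₁ * A)) * (lam * Real.exp (-τ)) ^ f n =
          lam ^ f n * Real.exp (τ * (lam * μ - ε₁ * A - (f n : ℝ))) := by
        rw [mul_pow, ← Real.exp_nat_mul, mul_left_comm, ← Real.exp_add]
        congr 2
        ring
      rw [e2, e3]
      rcases h4 with h4 | h4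
      · have e4 : 1 ≤ Real.exp (τ * (lam * μ - ε₁ * A - (f n : ℝ))) := by
          apply Real.one_le_exp
          apply mul_nonneg hτ.le
          linarith
        have e5 : 0 < Real.exp (τ * ((f n : ℝ) - lam * μ - ε₁ * A)) := Real.exp_pos _
        nlinarith
      · have e4 : 1 ≤ Real.exp (τ * ((f n : ℝ) - lam * μ - ε₁ * A)) := by
          apply Real.one_le_exp
          apply mul_nonneg hτ.le
          linarith
        have e5 : 0 < Real.exp (τ * (lam * μ - ε₁ * A - (f n : ℝ))) := Real.exp_pos _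
        nlinarith
    refine (sum_le_sum k2).trans ?_
    apply sum_le_sum_of_subset_of_nonneg (filter_subset _ _)
    intro n _ _
    positivity
  have k3 : Real.exp (-(τ * (lam * μ + ε₁ * A))) * Z (lam * Real.exp τ) W f ≤ m * (1 / 4) := by
    calc Real.exp (-(τ * (lam * μ + ε₁ * A))) * Z (lam * Real.exp τ) W f
        ≤ Real.exp (-(τ * (lam * μ + ε₁ * A))) * (W.card * Real.exp ((lam * Real.exp τ - 1) * μ + ε₃ * A)) :=
          mul_le_mul_of_nonneg_left h2 (Real.exp_pos _).le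
      _ = W.card * Real.exp (-(τ * (lam * μ + ε₁ * A)) + ((lam * Real.exp τ - 1) * μ + ε₃ * A)) := by
          rw [Real.exp_add (-(τ * (lam * μ + ε₁ * A)))]
          ring
      _ ≤ W.card * Real.exp (((lam - 1) * μ - ε₃ * A) + -(τ * ε₁ / 4 * A)) := by
          apply mul_le_mul_of_nonneg_left _ hW0
          apply Real.exp_le_exp.2
          have e1 := exp_sub_le τ hτ hτ1
          have e2 : lam * μ * (Real.exp τ - 1 - τ) ≤ lam * μ * τ ^ 2 := mul_le_mul_of_nonneg_left e1 (by positivity)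
          have e3 : lam * μ * τ ^ 2 ≤ ε₁ / 2 * τ * A := by
            calc lam * μ * τ ^ 2 = (lam * τ) * τ * μ := by ring
              _ ≤ (ε₁ / 2) * τ * A := by
                apply mul_le_mul _ hμ hμ0 (by positivity)
                exact mul_le_mul_of_nonneg_right hlτ hτ.le
          have e4 : ε₃ * A ≤ τ * ε₁ / 8 * A := mul_le_mul_of_nonneg_right hε₃' hA
          nlinarith
      _ = m * Real.exp (-(τ * ε₁ / 4 * A)) := by rw [Real.exp_add, hm]; ring
      _ ≤ m * (1 / 4) := mul_le_mul_of_nonneg_left hA1 hm0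
  have k4 : Real.exp (τ * (lam * μ - ε₁ * A)) * Z (lam * Real.exp (-τ)) W f ≤ m * (1 / 4) := by
    calc Real.exp (τ * (lam * μ - ε₁ * A)) * Z (lam * Real.exp (-τ)) W f
        ≤ Real.exp (τ * (lam * μ - ε₁ * A)) * (W.card * Real.exp ((lam * Real.exp (-τ) - 1) * μ + ε₃ * A)) :=
          mul_le_mul_of_nonneg_left h3 (Real.exp_pos _).le
      _ = W.card * Real.exp (τ * (lam * μ - ε₁ * A) + ((lam * Real.exp (-τ) - 1) * μ + ε₃ * A)) := by
          rw [Real.exp_add (τ * (lam * μ - ε₁ * A))]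
          ring
      _ ≤ W.card * Real.exp (((lam - 1) * μ - ε₃ * A) + -(τ * ε₁ / 4 * A)) := by
          apply mul_le_mul_of_nonneg_left _ hW0
          apply Real.exp_le_exp.2
          have e1 := exp_neg_sub_le τ hτ hτ1
          have e2 : lam * μ * (Real.exp (-τ) - 1 + τ) ≤ lam * μ * τ ^ 2 := mul_le_mul_of_nonneg_left e1 (by positivity)
          have e3 : lam * μ * τ ^ 2 ≤ ε₁ / 2 * τ * A := by
            calc lam * μ * τ ^ 2 = (lam * τ) * τ * μ := by ring
              _ ≤ (ε₁ / 2) * τ * A := by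
                apply mul_le_mul _ hμ hμ0 (by positivity)
                exact mul_le_mul_of_nonneg_right hlτ hτ.le
          have e4 : ε₃ * A ≤ τ * ε₁ / 8 * A := mul_le_mul_of_nonneg_right hε₃' hA
          nlinarith
      _ = m * Real.exp (-(τ * ε₁ / 4 * A)) := by rw [Real.exp_add, hm]; ring
      _ ≤ m * (1 / 4) := mul_le_mul_of_nonneg_left hA1 hm0
  -- the points in the window
  have k5 : m / 2 ≤ ∑ n ∈ W.filter (fun n => |(f n : ℝ) - lam * μ| ≤ ε₁ * A), lam ^ f n := by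
    have e1 := sum_filter_add_sum_filter_not W (fun n => |(f n : ℝ) - lam * μ| ≤ ε₁ * A) (fun n => lam ^ f n)
    have e2 : Z lam W f = ∑ n ∈ W, lam ^ f n := rfl
    rw [← e2] at e1
    linarith
  have k6 : ∀ n ∈ W.filter (fun n => |(f n : ℝ) - lam * μ| ≤ ε₁ * A), lam ^ f n ≤
      Real.exp (lam * μ * Real.log lam + |Real.log lam| * (ε₁ * A)) := by
    intro n hn
    have e1 := (mem_filter.1 hn).2
    have e2 : lam ^ f n = Real.exp (f n * Real.log lam) := by
      rw [← Real.log_pow, Real.exp_log (pow_pos hl _)]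
    rw [e2]
    apply Real.exp_le_exp.2
    have e3 : ((f n : ℝ) - lam * μ) * Real.log lam ≤ |Real.log lam| * (ε₁ * A) := by
      calc ((f n : ℝ) - lam * μ) * Real.log lam ≤ |((f n : ℝ) - lam * μ) * Real.log lam| := le_abs_self _
        _ = |Real.log lam| * |(f n : ℝ) - lam * μ| := by rw [abs_mul, mul_comm]
        _ ≤ _ := mul_le_mul_of_nonneg_left e1 (abs_nonneg _)
    linarith
  set N : ℝ := ((W.filter (fun n => |(f n : ℝ) - lam * μ| ≤ ε₁ * A)).card : ℝ) with hN
  have k7 : m / 2 ≤ N * Real.exp (lam * μ * Real.log lam + |Real.log lam| * (ε₁ * A)) := by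
    refine k5.trans ((sum_le_sum k6).trans (le_of_eq ?_))
    rw [sum_const, nsmul_eq_mul]
  have k8 : W.card * Real.exp (-(μ * I lam + ε₁ * (|Real.log lam| + 1) * A)) *
      Real.exp (lam * μ * Real.log lam + |Real.log lam| * (ε₁ * A)) ≤ m / 2 := by
    rw [mul_assoc, ← Real.exp_add]
    have e1 : -(μ * I lam + ε₁ * (|Real.log lam| + 1) * A) + (lam * μ * Real.log lam + |Real.log lam| * (ε₁ * A)) =
        (lam - 1) * μ - ε₁ * A := by
      unfold I
      ring
    rw [e1]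
    have e2 : Real.exp ((lam - 1) * μ - ε₁ * A) ≤ Real.exp (((lam - 1) * μ - ε₃ * A) + -(ε₁ / 2 * A)) := by
      apply Real.exp_le_exp.2
      have f1 : ε₃ ≤ ε₁ / 2 := by
        have : τ * ε₁ ≤ 1 * ε₁ := mul_le_mul_of_nonneg_right hτ1 hε₁.le
        linarith
      have f2 := mul_le_mul_of_nonneg_right f1 hA
      linarith
    rw [Real.exp_add] at e2
    calc (W.card : ℝ) * Real.exp ((lam - 1) * μ - ε₁ * A) ≤
        W.card * (Real.exp ((lam - 1) * μ - ε₃ * A) * Real.exp (-(ε₁ / 2 * A))) := mul_le_mul_of_nonneg_left e2 hW0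
      _ = m * Real.exp (-(ε₁ / 2 * A)) := by rw [hm]; ring
      _ ≤ m * (1 / 2) := mul_le_mul_of_nonneg_left hA2 hm0
      _ = m / 2 := by ring
  exact le_of_mul_le_mul_right (k8.trans k7) (Real.exp_pos _)

end Pool.Agent.Q145.LD
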